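import Pool.Agent.MP_f24711_lc.Models

/-!
The universal class attached to the charts.
-/

namespace Pool.Agent.MP_f24711_lc

open Function Set FirstOrder FirstOrder.Language FirstOrder.Language.Structure

/-- A tuple of level `k` lying in no proper member. -/
def Gen {n k : ℕ} (x : Fin n → X k) : Prop := ∀ j e, Emb j k e → range x ⊆ range e → j = k

/-- Function symbols: a generating tuple of a level and a point of that level. -/
structure Fn (n : ℕ) where
  k : ℕ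
  x : Fin n → X k
  y : X k
  gen : Gen x
  pos : 0 < n

instance (n : ℕ) : Countable (Fn n) :=
  Function.Injective.countable
    (f := fun f : Fn n => (⟨f.k, f.x, f.y⟩ : Σ k, (Fin n → X k) × X k)) (by
    rintro ⟨k, x, y, _, _⟩ ⟨k', x', y', _, _⟩ h
    simp only [Sigma.mk.injEq] at h
    obtain ⟨rfl, h⟩ := h
    simp only [heq_eq_eq, Prod.mk.injEq] at h
    obtain ⟨rfl, rfl⟩ := h
    rfl)

/-- The language. -/
def L : FirstOrder.Language.{0, 0} := ⟨Fn, fun n => {k : ℕ // Nat.card (X k) = n}⟩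

instance (n : ℕ) : Countable (L.Functions n) := inferInstanceAs (Countable (Fn n))

instance (n : ℕ) : Countable (L.Relations n) :=
  inferInstanceAs (Countable {k : ℕ // Nat.card (X k) = n})

lemma card_L : L.card ≤ Cardinal.aleph0 := Cardinal.mk_le_aleph0

/-- An enumeration of level `k`. -/
noncomputable def enum (k : ℕ) : X k ≃ Fin (Nat.card (X k)) := Finite.equivFin _

/-- Charts read off an `L`-structure. -/
def Ch {M : Type} [L.Structure M] (k : ℕ) (h : X k → M) : Prop :=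
  RelMap (L := L) (⟨k, rfl⟩ : L.Relations (Nat.card (X k))) (h ∘ (enum k).symm)

/-- The `L`-structure on the support of `N` is the one given by the charts of `N`. -/
structure Fits {M : Type} [L.Structure M] (N : Model M) : Prop where
  rel : ∀ k (h : X k → M), range h ⊆ N.supp → (Ch k h ↔ h ∈ N.ch k)
  f1 : ∀ n (f : Fn n) (h : X f.k → M), h ∈ N.ch f.k → funMap (L := L) f (h ∘ f.x) = h f.y
  f2 : ∀ n (f : Fn n) (a : Fin n → M), range a ⊆ N.supp → (∀ h ∈ N.ch f.k, h ∘ f.x ≠ a) →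
    funMap (L := L) f a = a ⟨0, f.pos⟩

/-- The set `S` carries a model. -/
def Good (M : Type) [L.Structure M] (S : Set M) : Prop := ∃ N : Model M, N.supp = S ∧ Fits N

/-- The universal class. -/
def K (M : Type) [L.Structure M] : Prop := Good M univ

lemma ch_comp {M M' : Type} [L.Structure M] [L.Structure M'] (φ : M ↪[L] M') (k : ℕ)
    (h : X k → M) : Ch k (φ ∘ h) ↔ Ch k h :=
  φ.map_rel _ (h ∘ (enum k).symm)

lemma exists_lift {α M M' : Type} {φ : M → M'} {g : α → M'} (h : range g ⊆ range φ) :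
    ∃ g₀ : α → M, g = φ ∘ g₀ := by
  choose g₀ hg₀ using fun x => h ⟨x, rfl⟩
  exact ⟨g₀, funext fun x => (hg₀ x).symm⟩

namespace Model

variable {M M' : Type}

/-- Push a model forward along an injection. -/
def map (N : Model M) (φ : M → M') (hφ : Injective φ) : Model M' where
  ch k := {g | ∃ h ∈ N.ch k, g = φ ∘ h}
  inj := by
    rintro k _ ⟨h, hh, rfl⟩
    exact hφ.comp (N.inj hh)
  comp := by
    rintro j k _ e ⟨h, hh, rfl⟩ he
    exact ⟨_, N.comp hh he, rfl⟩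
  dir := by
    rintro k k' _ _ ⟨h, hh, rfl⟩ ⟨h', hh', rfl⟩
    obtain ⟨m, g, e, e', hg, he, he', rfl, rfl⟩ := N.dir hh hh'
    exact ⟨m, φ ∘ g, e, e', ⟨g, hg, rfl⟩, he, he', rfl, rfl⟩
  base := by
    obtain ⟨h, hh⟩ := N.base
    exact ⟨_, h, hh, rfl⟩

lemma supp_map (N : Model M) (φ : M → M') (hφ : Injective φ) :
    (N.map φ hφ).supp = φ '' N.supp := by
  ext y
  constructor
  · rintro ⟨k, _, ⟨h, hh, rfl⟩, x, rfl⟩
    exact ⟨_, ⟨k, h, hh, x, rfl⟩, rfl⟩
  · rintro ⟨_, ⟨k, h, hh, x, rfl⟩, rfl⟩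
    exact ⟨k, _, ⟨h, hh, rfl⟩, x, rfl⟩

/-- Pull a model back along an injection onto its support. -/
def comap (N : Model M') (φ : M → M') (hφ : Injective φ) (hs : N.supp ⊆ range φ) : Model M where
  ch k := {h | φ ∘ h ∈ N.ch k}
  inj := fun hh => (N.inj hh).of_comp
  comp := fun hh he => N.comp hh he
  dir := by
    intro k k' h h' hh hh'
    obtain ⟨m, g, e, e', hg, he, he', h1, h2⟩ := N.dir hh hh'
    obtain ⟨g₀, rfl⟩ := exists_lift ((N.range_subset hg).trans hs)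
    exact ⟨m, g₀, e, e', hg, he, he', hφ.comp_left h1, hφ.comp_left h2⟩
  base := by
    obtain ⟨h, hh⟩ := N.base
    obtain ⟨g₀, rfl⟩ := exists_lift ((N.range_subset hh).trans hs)
    exact ⟨g₀, hh⟩

lemma supp_comap (N : Model M') (φ : M → M') (hφ : Injective φ) (hs : N.supp = range φ) :
    (N.comap φ hφ hs.subset).supp = univ := by
  refine eq_univ_of_forall fun x => ?_
  obtain ⟨k, g, hg, y, hy⟩ : φ x ∈ N.supp := hs ▸ ⟨x, rfl⟩
  obtain ⟨g₀, rfl⟩ := exists_lift ((N.range_subset hg).trans hs.subset)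
  exact ⟨k, g₀, hg, y, hφ hy⟩

lemma chart_unique (N : Model M) {n k : ℕ} {x : Fin n → X k} (hx : Gen x) {g g' : X k → M}
    (hg : g ∈ N.ch k) (hg' : g' ∈ N.ch k) (h : g ∘ x = g' ∘ x) : g = g' := by
  obtain ⟨l, d, hd, hr⟩ := N.inter hg hg'
  obtain ⟨c, hc, rfl⟩ := N.factor hg hd (by rw [hr]; exact inter_subset_left)
  obtain rfl : l = k := hx l c hc (range_le_of (N.inj hg) (by
    rw [hr]
    rintro _ ⟨i, rfl⟩
    exact ⟨⟨_, rfl⟩, ⟨x i, (congrFun h i).symm⟩⟩))
  obtain ⟨c', hc', h'⟩ := N.factor hg' hd (by rw [hr]; exact inter_subset_right)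
  rw [hc.eq_id, hc'.eq_id] at h'
  exact h'

open Classical in
/-- The `L`-structure given by a model. -/
@[reducible] noncomputable def str (N : Model M) : L.Structure M where
  funMap := fun {_} (f : Fn _) a =>
    if h : ∃ g ∈ N.ch f.k, g ∘ f.x = a then h.choose f.y else a ⟨0, f.pos⟩
  RelMap := fun {_} r a => (a ∘ Fin.cast r.2 ∘ enum r.1) ∈ N.ch r.1

lemma fits_str (N : Model M) : @Fits M N.str N := by
  classical
  let _ := N.str
  refine ⟨fun k h _ => ?_, fun n f h hh => ?_, fun n f a _ ha => ?_⟩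
  · change ((h ∘ (enum k).symm) ∘ Fin.cast rfl ∘ enum k) ∈ N.ch k ↔ _
    have : (h ∘ (enum k).symm) ∘ Fin.cast rfl ∘ enum k = h := by
      funext y
      simp
    rw [this]
  · have hex : ∃ g ∈ N.ch f.k, g ∘ f.x = h ∘ f.x := ⟨h, hh, rfl⟩
    refine (dif_pos hex).trans ?_
    rw [N.chart_unique f.gen hex.choose_spec.1 hh hex.choose_spec.2]
  · refine dif_neg ?_
    rintro ⟨g, hg, h⟩
    exact ha g hg h

end Model

section Closure

variable {M M' : Type} [L.Structure M] [L.Structure M']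

lemma K.good_range (h : K M) (φ : M ↪[L] M') : Good M' (range φ) := by
  obtain ⟨N, hN, hF⟩ := h
  have hs : (N.map φ φ.injective).supp = range φ := by rw [N.supp_map, hN, image_univ]
  refine ⟨N.map φ φ.injective, hs, fun k g hg => ?_, ?_, fun n f a ha hna => ?_⟩
  · obtain ⟨h, rfl⟩ := exists_lift (hs ▸ hg)
    rw [ch_comp, hF.rel k h (hN ▸ subset_univ _)]
    constructor
    · exact fun hh => ⟨h, hh, rfl⟩
    · rintro ⟨h', hh', e⟩
      rwa [φ.injective.comp_left e]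
  · rintro n f _ ⟨h, hh, rfl⟩
    have := φ.map_fun (show L.Functions n from f) (h ∘ f.x)
    rw [hF.f1 n f h hh] at this
    exact this.symm
  · obtain ⟨a₀, rfl⟩ := exists_lift (hs ▸ ha)
    have := φ.map_fun (show L.Functions n from f) a₀
    rw [hF.f2 n f a₀ (hN ▸ subset_univ _) fun h hh e => hna _ ⟨h, hh, rfl⟩ (by rw [← e]; rfl)]
      at this
    exact this.symm

lemma Good.K_of_range (φ : M ↪[L] M') (h : Good M' (range φ)) : K M := by
  obtain ⟨N, hN, hF⟩ := h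
  refine ⟨N.comap φ φ.injective hN.subset, N.supp_comap φ φ.injective hN,
    fun k g _ => ?_, fun n f h hh => ?_, fun n f a _ hna => ?_⟩
  · rw [← ch_comp φ, hF.rel k _ (hN ▸ range_comp_subset_range _ _)]
    rfl
  · apply φ.injective
    rw [φ.map_fun (show L.Functions n from f)]
    exact hF.f1 n f _ hh
  · apply φ.injective
    rw [φ.map_fun (show L.Functions n from f)]
    refine hF.f2 n f _ (hN ▸ range_comp_subset_range _ _) fun h hh e => ?_
    obtain ⟨h₀, rfl⟩ := exists_lift ((N.range_subset hh).trans hN.subset)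
    exact hna h₀ hh (φ.injective.comp_left e)

lemma K.of_equiv (φ : M ≃[L] M') (h : K M) : K M' := by
  have := h.good_range φ.toEmbedding
  rwa [show range φ.toEmbedding = univ from φ.surjective.range_eq] at this

lemma K_iff_good (S : L.Substructure M) : K S ↔ Good M S := by
  have hr : range S.subtype = S := Subtype.range_coe
  exact ⟨fun h => hr ▸ h.good_range S.subtype, fun h => Good.K_of_range S.subtype (hr.symm ▸ h)⟩

lemma Fits.cover_in {N : Model M} (hF : Fits N) (S : L.Substructure M) {T : Set M} (hT : T.Finite)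
    (hTS : T ⊆ S) (hTN : T ⊆ N.supp) : ∃ m g, g ∈ N.ch m ∧ T ⊆ range g ∧ range g ⊆ S := by
  classical
  rcases T.eq_empty_or_nonempty with rfl | hne
  · obtain ⟨b, hb⟩ := N.base
    exact ⟨0, b, hb, empty_subset _, by rintro _ ⟨y, -⟩; exact isEmptyElim y⟩
  obtain ⟨n, a, -, rfl⟩ := hT.fin_param
  have hn : 0 < n := by
    obtain ⟨_, i, -⟩ := hne
    exact i.pos
  have hex := N.cover hT hTN
  obtain ⟨m, ⟨g, hg, hTg⟩, hmin⟩ : ∃ m, (∃ g, g ∈ N.ch m ∧ range a ⊆ range g) ∧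
      ∀ j, (∃ g, g ∈ N.ch j ∧ range a ⊆ range g) → m ≤ j :=
    ⟨Nat.find hex, Nat.find_spec hex, fun j hj => Nat.find_min' hex hj⟩
  obtain ⟨x, rfl⟩ := exists_lift hTg
  have hgen : Gen x := fun j e he hr => le_antisymm he.le (hmin j
    ⟨g ∘ e, N.comp hg he, by rw [range_comp, range_comp]; exact image_mono hr⟩)
  refine ⟨_, g, hg, hTg, ?_⟩
  rintro _ ⟨y, rfl⟩
  rw [← hF.f1 n ⟨_, x, y, hgen, hn⟩ g hg]
  exact S.fun_mem _ _ fun i => hTS ⟨i, rfl⟩

lemma K.substructure (h : K M) (S : L.Substructure M) : K S := by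
  obtain ⟨N, hN, hF⟩ := h
  have hcov := fun {T : Set M} (hT : T.Finite) (hTS : T ⊆ S) =>
    hF.cover_in S hT hTS (hN ▸ subset_univ _)
  let N' : Model M :=
    { ch := fun k => {h | h ∈ N.ch k ∧ range h ⊆ S}
      inj := fun hh => N.inj hh.1
      comp := fun hh he => ⟨N.comp hh.1 he, (range_comp_subset_range _ _).trans hh.2⟩
      dir := by
        intro k k' h h' hh hh'
        obtain ⟨m, g, hg, hT, hS⟩ := hcov ((finite_range h).union (finite_range h'))
          (union_subset hh.2 hh'.2)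
        obtain ⟨e, he, h1⟩ := N.factor hg hh.1 (subset_union_left.trans hT)
        obtain ⟨e', he', h2⟩ := N.factor hg hh'.1 (subset_union_right.trans hT)
        exact ⟨m, g, e, e', ⟨hg, hS⟩, he, he', h1, h2⟩
      base := by
        obtain ⟨b, hb⟩ := N.base
        exact ⟨b, hb, by rintro _ ⟨y, -⟩; exact isEmptyElim y⟩ }
  have hs : N'.supp = S := by
    ext x
    constructor
    · rintro ⟨k, h, hh, hx⟩
      exact hh.2 hx
    · intro hx
      obtain ⟨m, g, hg, hT, hS⟩ := hcov (finite_singleton x) (singleton_subset_iff.mpr hx)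
      exact ⟨m, g, ⟨hg, hS⟩, hT rfl⟩
  refine (K_iff_good S).mpr ⟨N', hs, fun k h hh => ?_, fun n f h hh => hF.f1 n f h hh.1,
    fun n f a ha hna => hF.f2 n f a (hN ▸ subset_univ _) fun h hh e => hna h ⟨hh, ?_⟩ e⟩
  · rw [hF.rel k h (hN ▸ subset_univ _)]
    exact ⟨fun h' => ⟨h', hs ▸ hh⟩, fun h' => h'.1⟩
  · rintro _ ⟨y, rfl⟩
    rw [← hF.f1 n ⟨_, f.x, y, f.gen, f.pos⟩ h hh]
    refine S.fun_mem _ _ fun i => ?_
    have : a i ∈ (S : Set M) := hs ▸ ha ⟨i, rfl⟩
    rw [← e] at this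
    exact this

lemma K.chain (C : Set (L.Substructure M)) (hC : C.Nonempty) (hch : IsChain (· ≤ ·) C)
    (h : ∀ S ∈ C, K S) : K (sSup C : L.Substructure M) := by
  let c : Set (Model M) := {N | Fits N ∧ ∃ S ∈ C, N.supp = S}
  have hle : ∀ N ∈ c, ∀ N' ∈ c, N.supp ⊆ N'.supp → N.Le N' := by
    intro N hN N' hN' hs k g hg
    exact (hN'.1.rel k g ((N.range_subset hg).trans hs)).mp
      ((hN.1.rel k g (N.range_subset hg)).mpr hg)
  have hcc : ∀ N ∈ c, ∀ N' ∈ c, N.Le N' ∨ N'.Le N := by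
    intro N hN N' hN'
    obtain ⟨S, hS, e⟩ := hN.2
    obtain ⟨S', hS', e'⟩ := hN'.2
    rcases hch.total hS hS' with h1 | h1
    · exact Or.inl (hle N hN N' hN' (by rw [e, e']; exact h1))
    · exact Or.inr (hle N' hN' N hN (by rw [e, e']; exact h1))
  have hex : ∀ S ∈ C, ∃ N ∈ c, N.supp = S := by
    intro S hS
    obtain ⟨N, hN, hF⟩ := (K_iff_good S).mp (h S hS)
    exact ⟨N, ⟨hF, S, hS, hN⟩, hN⟩
  have hne : c.Nonempty := by
    obtain ⟨S, hS⟩ := hC
    obtain ⟨N, hN, -⟩ := hex S hS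
    exact ⟨N, hN⟩
  have hfin : ∀ T : Set M, T.Finite → T ⊆ (Model.chainUnion c hne hcc).supp →
      ∃ N ∈ c, T ⊆ N.supp := by
    intro T hT hTs
    obtain ⟨m, G, ⟨N, hN, hG⟩, hTG⟩ := (Model.chainUnion c hne hcc).cover hT hTs
    exact ⟨N, hN, hTG.trans (N.range_subset hG)⟩
  refine (K_iff_good _).mpr ⟨Model.chainUnion c hne hcc, ?_, fun k g hg => ?_, ?_,
    fun n f a ha hna => ?_⟩
  · ext x
    rw [SetLike.mem_coe, Substructure.mem_sSup_of_directedOn hC hch.directedOn]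
    constructor
    · intro hx
      obtain ⟨N, ⟨-, S, hS, e⟩, hxN⟩ := Model.mem_supp_chainUnion hne hcc hx
      exact ⟨S, hS, by rw [e] at hxN; exact hxN⟩
    · rintro ⟨S, hS, hx⟩
      obtain ⟨N, hN, e⟩ := hex S hS
      exact (Model.le_chainUnion hne hcc hN).supp (e ▸ hx)
  · obtain ⟨N, hN, hs⟩ := hfin _ (finite_range g) hg
    rw [hN.1.rel k g hs]
    exact ⟨fun h' => ⟨N, hN, h'⟩, fun h' => (Model.le_chainUnion hne hcc hN).mem_of_range h' hs⟩
  · rintro n f g ⟨N, hN, hg⟩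
    exact hN.1.f1 n f g hg
  · obtain ⟨N, hN, hs⟩ := hfin _ (finite_range a) ha
    exact hN.1.f2 n f a hs fun g hg => hna g ⟨N, hN, hg⟩

lemma K.categorical (h : K M) (h' : K M') (hM : Cardinal.mk M = Cardinal.aleph0)
    (hM' : Cardinal.mk M' = Cardinal.aleph0) : Nonempty (L.Equiv M M') := by
  obtain ⟨N, hN, hF⟩ := h
  obtain ⟨N', hN', hF'⟩ := h'
  have : Countable M := Cardinal.mk_le_aleph0_iff.mp hM.le
  have : Countable M' := Cardinal.mk_le_aleph0_iff.mp hM'.le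
  have : Infinite M := Cardinal.aleph0_le_mk_iff.mp hM.ge
  have : Infinite M' := Cardinal.aleph0_le_mk_iff.mp hM'.ge
  obtain ⟨φ, hφ⟩ := N.countable_unique N' hN hN'
  refine ⟨⟨φ, fun {n} f a => ?_, fun {n} r a => ?_⟩⟩
  · by_cases hex : ∃ g ∈ N.ch (Fn.k f), g ∘ Fn.x f = a
    · obtain ⟨g, hg, rfl⟩ := hex
      rw [hF.f1 n f g hg]
      exact (hF'.f1 n f _ ((hφ _ _).mp hg)).symm
    · rw [hF.f2 n f a (hN ▸ subset_univ _) fun g hg e => hex ⟨g, hg, e⟩]
      refine (hF'.f2 n f (φ ∘ a) (hN' ▸ subset_univ _) fun g hg e => hex ⟨φ.symm ∘ g, ?_, ?_⟩).symm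
      · rw [hφ]
        convert hg
        funext y
        simp
      · funext i
        have := congrFun e i
        simp only [comp_apply] at this ⊢
        rw [this]
        simp
  · obtain ⟨k, rfl⟩ := r
    have e : a = (a ∘ enum k) ∘ (enum k).symm := by
      funext i
      simp
    rw [e]
    change Ch k (φ ∘ (a ∘ enum k)) ↔ Ch k (a ∘ enum k)
    rw [hF.rel k _ (hN ▸ subset_univ _), hF'.rel k _ (hN' ▸ subset_univ _), hφ]

end Closure

/-- The model on the support of `N`. -/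
def Model.onSupp {Ω : Type} (N : Model Ω) : Model N.supp :=
  N.comap Subtype.val Subtype.val_injective Subtype.range_coe.symm.subset

lemma Model.K_onSupp {Ω : Type} (N : Model Ω) : @K N.supp N.onSupp.str :=
  ⟨N.onSupp, N.supp_comap _ _ Subtype.range_coe.symm, N.onSupp.fits_str⟩

lemma mk_supp {Ω : Type} (hΩ : Cardinal.mk Ω = Cardinal.aleph 1) {S : Set Ω}
    (hS : ¬ S.Countable) : Cardinal.mk S = Cardinal.aleph 1 := by
  refine le_antisymm (hΩ ▸ Cardinal.mk_set_le S) ?_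
  rw [← Cardinal.le_aleph0_iff_set_countable, not_le] at hS
  rw [← Cardinal.succ_aleph0]
  exact Order.succ_le_of_lt hS

theorem two_models : ∃ (M₁ M₂ : Type) (i₁ : L.Structure M₁) (i₂ : L.Structure M₂),
    @K M₁ i₁ ∧ @K M₂ i₂ ∧ Cardinal.mk M₁ = Cardinal.aleph 1 ∧ Cardinal.mk M₂ = Cardinal.aleph 1 ∧
      IsEmpty (@FirstOrder.Language.Equiv L M₁ M₂ i₁ i₂) := by
  let Ω : Type := (Cardinal.aleph 1).out
  have hΩ : Cardinal.mk Ω = Cardinal.aleph 1 := Cardinal.mk_out _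
  have : Uncountable Ω := Cardinal.aleph0_lt_mk_iff.mp (hΩ ▸ Cardinal.aleph0_lt_aleph_one)
  obtain ⟨N₁, h₁, D, hD, hS⟩ := Model.exists_slow_model (Ω := Ω)
  obtain ⟨N₂, h₂, hF⟩ := Model.exists_fast_model (Ω := Ω)
  refine ⟨N₁.supp, N₂.supp, N₁.onSupp.str, N₂.onSupp.str, N₁.K_onSupp, N₂.K_onSupp,
    mk_supp hΩ h₁, mk_supp hΩ h₂, ⟨fun φ => ?_⟩⟩
  let _ := N₁.onSupp.str
  let _ := N₂.onSupp.str
  have u₁ : N₁.onSupp.supp = univ := N₁.supp_comap _ _ Subtype.range_coe.symm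
  have u₂ : N₂.onSupp.supp = univ := N₂.supp_comap _ _ Subtype.range_coe.symm
  have hφ : ∀ k (h : X k → N₁.supp), Subtype.val ∘ h ∈ N₁.ch k →
      Subtype.val ∘ φ ∘ h ∈ N₂.ch k := by
    intro k h hh
    exact (N₂.onSupp.fits_str.rel k _ (u₂ ▸ subset_univ _)).mp
      ((ch_comp φ.toEmbedding k h).mpr
        ((N₁.onSupp.fits_str.rel k _ (u₁ ▸ subset_univ _)).mpr hh))
  obtain ⟨a, ha, hfast⟩ := hF (Subtype.val '' (φ '' (Subtype.val ⁻¹' D)))
    (((hD.preimage Subtype.val_injective).image _).image _) (by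
      rintro _ ⟨y, -, rfl⟩
      exact y.2)
  obtain ⟨n, b, t, g, hb, hbD, hg, hbg, hT, hlt⟩ := hS {(φ.symm ⟨a, ha⟩ : Ω)} (finite_singleton _)
    (singleton_subset_iff.mpr (φ.symm ⟨a, ha⟩).2) 1
  obtain ⟨b₀, rfl⟩ := exists_lift (φ := (Subtype.val : N₁.supp → Ω)) (g := b)
    (Subtype.range_coe.symm ▸ N₁.range_subset hb)
  obtain ⟨g₀, rfl⟩ := exists_lift (φ := (Subtype.val : N₁.supp → Ω)) (g := g)
    (Subtype.range_coe.symm ▸ N₁.range_subset hg)
  have := hfast t _ (hφ t g₀ hg) (by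
      obtain ⟨y, hy⟩ := hT rfl
      refine ⟨y, ?_⟩
      have : g₀ y = φ.symm ⟨a, ha⟩ := Subtype.ext hy
      simp [this]) n _ (hφ n b₀ hb) (by
      rintro _ ⟨y, rfl⟩
      exact ⟨_, ⟨b₀ y, hbD ⟨y, rfl⟩, rfl⟩, rfl⟩) (by
      rintro _ ⟨y, rfl⟩
      obtain ⟨z, hz⟩ := hbg ⟨y, rfl⟩
      have : g₀ z = b₀ y := Subtype.ext hz
      exact ⟨z, by simp [this]⟩)
  omega

end Pool.Agent.MP_f24711_lc
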