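import Mathlib

/-!
Finite levels `X 0, X 1, ...` with distinguished injections `Emb j k`.
Level `k + 1` is a Magnus-type cover of level `k`, with one extra point.
-/

namespace Pool.Agent.MP_f24711_lc

open Function Set

/-- A finite set with a finite group acting on it and a family of subsets. -/
structure Level where
  X : Type
  G : Type
  [finX : Finite X]
  [grp : Group G]
  [finG : Finite G]
  [act : MulAction G X]
  B : Set (Set X)

attribute [instance] Level.finX Level.grp Level.finG Level.act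

namespace Level

variable (l : Level)

/-- Coordinates of the cover. -/
abbrev I : Type := l.G × l.G × l.B

/-- The point `x` lies on the mirror of the coordinate `i`. -/
def OnMirror (x : l.X) (i : l.I) : Prop := i.1⁻¹ • x ∈ (i.2.2 : Set l.X)

/-- Translation of a vector by a group element. -/
def sh (μ : l.G) (a : l.I → ZMod 2) : l.I → ZMod 2 := fun i => a (μ⁻¹ * i.1, i.2)

/-- Boundary of a vector, read as a chain of edges in a Cayley graph. -/
noncomputable def bd (a : l.I → ZMod 2) (ν : l.G) : ZMod 2 :=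
  letI := Fintype.ofFinite (l.G × l.B)
  ∑ j : l.G × l.B, (a (ν * j.1⁻¹, j) + a (ν, j))

open Classical in
/-- Indicator of a group element. -/
noncomputable def ind (μ ν : l.G) : ZMod 2 := if ν = μ then 1 else 0

/-- The group of the cover. -/
@[ext]
structure P where
  a : l.I → ZMod 2
  μ : l.G
  adm : ∀ ν, l.bd a ν = l.ind μ ν + l.ind 1 ν

variable {l}

lemma sh_add (μ : l.G) (a b : l.I → ZMod 2) : l.sh μ (a + b) = l.sh μ a + l.sh μ b := rfl

lemma sh_mul (μ μ' : l.G) (a : l.I → ZMod 2) : l.sh (μ * μ') a = l.sh μ (l.sh μ' a) := by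
  funext i
  simp [sh, mul_assoc]

lemma sh_one (a : l.I → ZMod 2) : l.sh 1 a = a := by
  funext i
  simp [sh]

lemma sh_zero (μ : l.G) : l.sh μ 0 = 0 := rfl

lemma bd_add (a b : l.I → ZMod 2) (ν : l.G) : l.bd (a + b) ν = l.bd a ν + l.bd b ν := by
  simp only [bd, Pi.add_apply, ← Finset.sum_add_distrib]
  refine Finset.sum_congr rfl fun j _ => by ring

lemma bd_sh (μ : l.G) (a : l.I → ZMod 2) (ν : l.G) : l.bd (l.sh μ a) ν = l.bd a (μ⁻¹ * ν) := by
  simp only [bd, sh, mul_assoc]

lemma bd_zero (ν : l.G) : l.bd 0 ν = 0 := by simp [bd]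

lemma ind_shift (μ μ' ν : l.G) : l.ind μ' (μ⁻¹ * ν) = l.ind (μ * μ') ν := by
  unfold ind
  by_cases h : ν = μ * μ'
  · rw [if_pos h, if_pos (inv_mul_eq_iff_eq_mul.mpr h)]
  · rw [if_neg h, if_neg (mt inv_mul_eq_iff_eq_mul.mp h)]

lemma two_zero (x : ZMod 2) : x + x = 0 := by
  revert x; decide

instance : Mul l.P := ⟨fun p q => ⟨p.a + l.sh p.μ q.a, p.μ * q.μ, fun ν => by
  rw [bd_add, bd_sh, p.adm, q.adm, ind_shift, ind_shift, mul_one]
  have := two_zero (l.ind p.μ ν)
  linear_combination this⟩⟩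

instance : One l.P := ⟨⟨0, 1, fun ν => by rw [bd_zero, two_zero]⟩⟩

instance : Inv l.P := ⟨fun p => ⟨l.sh p.μ⁻¹ p.a, p.μ⁻¹, fun ν => by
  rw [bd_sh, p.adm, ind_shift, ind_shift, inv_mul_cancel, mul_one, add_comm]⟩⟩

@[simp] lemma mul_a (p q : l.P) : (p * q).a = p.a + l.sh p.μ q.a := rfl
@[simp] lemma mul_μ (p q : l.P) : (p * q).μ = p.μ * q.μ := rfl
@[simp] lemma one_a : (1 : l.P).a = 0 := rfl
@[simp] lemma one_μ : (1 : l.P).μ = 1 := rfl
@[simp] lemma inv_a (p : l.P) : p⁻¹.a = l.sh p.μ⁻¹ p.a := rfl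
@[simp] lemma inv_μ (p : l.P) : p⁻¹.μ = p.μ⁻¹ := rfl

instance : Group l.P := Group.ofLeftAxioms
  (fun p q r => P.ext (by simp [sh_add, sh_mul, add_assoc]) (by simp [mul_assoc]))
  (fun p => P.ext (by simp [sh_one]) (by simp))
  (fun p => P.ext (by funext i; simp [two_zero]) (by simp))

instance : Finite l.P :=
  Finite.of_injective (fun p : l.P => (p.a, p.μ)) (fun _ _ h =>
    P.ext (congrArg Prod.fst h) (congrArg Prod.snd h))

lemma P.eq_of_a {p q : l.P} (h : p.a = q.a) : p = q := by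
  refine P.ext h ?_
  have h1 := p.adm p.μ
  have h2 := q.adm p.μ
  rw [h, h2] at h1
  have h3 : l.ind q.μ p.μ = l.ind p.μ p.μ := add_right_cancel h1
  by_contra hne
  simp [ind, hne] at h3

open Classical in
/-- Restriction of a vector to the coordinates whose mirror misses `x`. -/
noncomputable def mask (x : l.X) (a : l.I → ZMod 2) : l.I → ZMod 2 :=
  fun i => if l.OnMirror x i then 0 else a i

lemma onMirror_smul (μ : l.G) (x : l.X) (i : l.I) :
    l.OnMirror (μ • x) i ↔ l.OnMirror x (μ⁻¹ * i.1, i.2) := by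
  simp [OnMirror, mul_smul]

lemma mask_add_sh_mask (μ : l.G) (x : l.X) (a b : l.I → ZMod 2) :
    mask (μ • x) (a + l.sh μ (mask x b)) = mask (μ • x) (a + l.sh μ b) := by
  funext i
  by_cases h : l.OnMirror (μ • x) i
  · simp [mask, h]
  · have h' := mt (onMirror_smul μ x i).mpr h
    simp [mask, h, sh, h']

lemma mask_mask (x : l.X) (a : l.I → ZMod 2) : mask x (mask x a) = mask x a := by
  funext i
  by_cases h : l.OnMirror x i <;> simp [mask, h]

variable (l) in
/-- Points of the cover. -/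
def Y : Type := Option {q : l.X × (l.I → ZMod 2) // mask q.1 q.2 = q.2}

instance : Finite l.Y := by
  unfold Y
  infer_instance

/-- A point of the cover over `x`. -/
noncomputable def pt (x : l.X) (a : l.I → ZMod 2) : l.Y :=
  some ⟨(x, mask x a), mask_mask x a⟩

lemma pt_eq_iff {x x' : l.X} {a a' : l.I → ZMod 2} :
    pt x a = pt x' a' ↔ x = x' ∧ ∀ i, a i ≠ a' i → l.OnMirror x i := by
  constructor
  · intro h
    have h1 := congrArg Subtype.val (Option.some.inj h)
    simp only [Prod.mk.injEq] at h1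
    obtain ⟨rfl, h2⟩ := h1
    refine ⟨rfl, fun i hi => ?_⟩
    by_contra hc
    have := congrFun h2 i
    simp [mask, hc] at this
    exact hi this
  · rintro ⟨rfl, h⟩
    have : mask x a = mask x a' := by
      funext i
      by_cases hc : l.OnMirror x i
      · simp [mask, hc]
      · have := mt (h i) hc
        simp only [ne_eq, not_not] at this
        simp [mask, hc, this]
    simp only [pt, this]

noncomputable instance : SMul l.P l.Y := ⟨fun p y =>
  match y with
  | none => none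
  | some q => pt (p.μ • q.1.1) (p.a + l.sh p.μ q.1.2)⟩

lemma smul_pt (p : l.P) (x : l.X) (a : l.I → ZMod 2) :
    p • pt x a = pt (p.μ • x) (p.a + l.sh p.μ a) := by
  change pt (p.μ • x) (p.a + l.sh p.μ (mask x a)) = _
  simp only [pt, mask_add_sh_mask]

lemma Y.cases (y : l.Y) : y = none ∨ ∃ x a, y = pt x a := by
  rcases y with _ | ⟨⟨x, a⟩, h⟩
  · exact Or.inl rfl
  · refine Or.inr ⟨x, a, ?_⟩
    simp only at h
    simp only [pt, h]

noncomputable instance : MulAction l.P l.Y where
  one_smul y := by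
    rcases y.cases with rfl | ⟨x, a, rfl⟩
    · rfl
    · simp [smul_pt, sh_one]
  mul_smul p q y := by
    rcases y.cases with rfl | ⟨x, a, rfl⟩
    · rfl
    · simp [smul_pt, sh_add, sh_mul, mul_smul, add_assoc]

/-- The chamber of a group element: a copy of the level in its cover. -/
noncomputable def ch (p : l.P) (x : l.X) : l.Y := pt (p.μ • x) p.a

lemma smul_ch (p q : l.P) (x : l.X) : p • ch q x = ch (p * q) x := by
  simp [ch, smul_pt, mul_smul]

lemma ch_injective (p : l.P) : Injective (ch p) := by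
  intro x y h
  exact MulAction.injective p.μ (pt_eq_iff.mp h).1

lemma ch_ne_none (p : l.P) (x : l.X) : ch p x ≠ none := by
  simp [ch, pt]

variable (l) in
/-- The next level. -/
noncomputable def next : Level where
  X := l.Y
  G := l.P
  B := {S | ∃ (p : l.P) (T : Set l.X), (T ∈ l.B ∨ T = univ) ∧ S = ch p '' T}

open Classical in
/-- The generator attached to a group element and a mirror. -/
noncomputable def gen (μ : l.G) (T : l.B) : l.P where
  a := Pi.single (1, μ, T) 1
  μ := μ
  adm ν := by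
    let _ := Fintype.ofFinite (l.G × l.B)
    simp only [bd, Finset.sum_add_distrib]
    rw [Finset.sum_eq_single (μ, T), Finset.sum_eq_single (μ, T)]
    · simp [ind, Pi.single_apply, mul_inv_eq_one]
    · intro j _ hj
      rw [Pi.single_eq_of_ne]
      intro h
      exact hj (congrArg Prod.snd h)
    · simp
    · intro j _ hj
      rw [Pi.single_eq_of_ne]
      intro h
      exact hj (congrArg Prod.snd h)
    · simp

lemma gen_a_ne (μ : l.G) (T : l.B) (i : l.I) (h : (gen μ T).a i ≠ 0) : i = (1, μ, T) := by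
  classical
  by_contra hc
  apply h
  simp only [gen]
  rw [Pi.single_apply, if_neg hc]

lemma gen_a_self (μ : l.G) (T : l.B) : (gen μ T).a (1, μ, T) = 1 := by
  simp [gen]

/-- Reflecting a chamber in a mirror fixes the mirror. -/
lemma ch_mul_gen (p : l.P) (μ : l.G) (T : l.B) (x : l.X) (hx : μ • x ∈ (T : Set l.X)) :
    ch (p * gen μ T) x = ch p (μ • x) := by
  refine pt_eq_iff.mpr ⟨by simp [gen, mul_smul], fun i hi => ?_⟩
  have h1 : (gen μ T).a (p.μ⁻¹ * i.1, i.2) ≠ 0 := by
    intro h0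
    apply hi
    simp [sh, h0]
  have h2 := gen_a_ne _ _ _ h1
  have h3 : (p * gen μ T).μ • x = p.μ • μ • x := by simp [gen, mul_smul]
  rw [h3, onMirror_smul, h2]
  simpa [OnMirror] using hx

/-- Points off the mirror in a chamber and in its reflection lie in no common chamber. -/
lemma not_common (p q : l.P) (μ : l.G) (T : l.B) (x y x' y' : l.X) (hx : x ∉ (T : Set l.X))
    (hy : μ • y ∉ (T : Set l.X)) (h1 : ch p x = ch q x') (h2 : ch (p * gen μ T) y = ch q y') :
    False := by
  have e1 := (pt_eq_iff.mp h1).2 (p.μ, μ, T)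
  have e2 := (pt_eq_iff.mp h2).2 (p.μ, μ, T)
  have m1 : ¬ l.OnMirror (p.μ • x) (p.μ, μ, T) := by simpa [OnMirror] using hx
  have m2 : ¬ l.OnMirror ((p * gen μ T).μ • y) (p.μ, μ, T) := by
    simpa [OnMirror, gen, mul_smul] using hy
  have f1 := not_not.mp (mt e1 m1)
  have f2 := not_not.mp (mt e2 m2)
  simp only [mul_a, Pi.add_apply, sh, inv_mul_cancel, gen_a_self] at f2
  rw [← f1] at f2
  simp at f2

end Level

/-- The levels. -/
noncomputable def lev : ℕ → Level
  | 0 => { X := PEmpty, G := PUnit, B := ∅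
           act := { smul := fun _ x => x, one_smul := fun _ => rfl, mul_smul := fun _ _ _ => rfl } }
  | k + 1 => (lev k).next

/-- The underlying finite set of level `k`. -/
def X (k : ℕ) : Type := (lev k).X

instance (k : ℕ) : Finite (X k) := (lev k).finX

instance : IsEmpty (X 0) := inferInstanceAs (IsEmpty PEmpty)

/-- Chambers as maps between consecutive levels. -/
noncomputable def cham {k : ℕ} (p : (lev k).P) : X k → X (k + 1) := Level.ch p

/-- The extra point of level `k + 1`. -/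
def extra (k : ℕ) : X (k + 1) := (none : (lev k).Y)

noncomputable instance (k : ℕ) : MulAction (lev k).G (X k) := (lev k).act

/-- The distinguished injections: composites of chambers. -/
inductive Emb (j : ℕ) : (k : ℕ) → (X j → X k) → Prop
  | id : Emb j j id
  | step {k : ℕ} {e : X j → X k} (p : (lev k).P) : Emb j k e → Emb j (k + 1) (cham p ∘ e)

lemma cham_injective {k : ℕ} (p : (lev k).P) : Injective (cham p) := Level.ch_injective p

lemma cham_ne_extra {k : ℕ} (p : (lev k).P) (x : X k) : cham p x ≠ extra k :=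
  Level.ch_ne_none p x

namespace Emb

lemma le {j k : ℕ} {e : X j → X k} (h : Emb j k e) : j ≤ k := by
  induction h with
  | id => exact le_rfl
  | step p _ ih => omega

lemma injective {j k : ℕ} {e : X j → X k} (h : Emb j k e) : Injective e := by
  induction h with
  | id => exact injective_id
  | step p _ ih => exact (cham_injective p).comp ih

lemma comp {i j k : ℕ} {e : X j → X k} {d : X i → X j} (h : Emb j k e) (h' : Emb i j d) :
    Emb i k (e ∘ d) := by
  induction h with
  | id => exact h'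
  | step p _ ih => exact Emb.step p ih

lemma cham {k : ℕ} (p : (lev k).P) : Emb k (k + 1) (cham p) := Emb.step p Emb.id

lemma inv {j k : ℕ} {e : X j → X (k + 1)} (h : Emb j (k + 1) e) (hj : j ≤ k) :
    ∃ (p : (lev k).P) (e₀ : X j → X k), Emb j k e₀ ∧ e = MP_f24711_lc.cham p ∘ e₀ := by
  cases h with
  | id => omega
  | step p h => exact ⟨p, _, h, rfl⟩

lemma eq_id {k : ℕ} {e : X k → X k} (h : Emb k k e) : e = _root_.id := by
  have : ∀ (m : ℕ) (e : X k → X m), Emb k m e → m = k → HEq e (_root_.id : X k → X k) := by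
    intro m e h hm
    cases h with
    | id => rfl
    | step p h =>
      have := h.le
      omega
  exact eq_of_heq (this k e h rfl)

lemma exists_of_le {j k : ℕ} (h : j ≤ k) : ∃ e, Emb j k e := by
  induction h with
  | refl => exact ⟨_, Emb.id⟩
  | step _ ih =>
    obtain ⟨e, he⟩ := ih
    exact ⟨_, Emb.step 1 he⟩

end Emb

/-- The properties proved by induction on the level. -/
structure Nice (k : ℕ) : Prop where
  mem_B : ∀ S : Set (X k), S ∈ (lev k).B ↔ ∃ j < k, ∃ e, Emb j k e ∧ S = range e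
  smul : ∀ (σ : (lev k).G) j (e : X j → X k), j < k → Emb j k e → Emb j k (fun x => σ • e x)
  homog : ∀ j (e e' : X j → X k), j < k → Emb j k e → Emb j k e' →
    ∃ σ : (lev k).G, ∀ x, σ • e x = e' x
  factor : ∀ i j (e : X i → X k) (e' : X j → X k), Emb i k e → Emb j k e' → range e ⊆ range e' →
    ∃ d, Emb i j d ∧ e = e' ∘ d
  inter : ∀ i j (e : X i → X k) (e' : X j → X k), Emb i k e → Emb j k e' →
    ∃ l d, Emb l k d ∧ range d = range e ∩ range e'

lemma nice_zero : Nice 0 where
  mem_B S := ⟨fun h => (Set.notMem_empty S h).elim, fun ⟨_, h, _⟩ => by omega⟩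
  smul _ _ _ h := by omega
  homog _ _ _ h := by omega
  factor i j e e' he he' _ := by
    obtain rfl : i = 0 := by have := he.le; omega
    obtain rfl : j = 0 := by have := he'.le; omega
    exact ⟨id, Emb.id, Subsingleton.elim _ _⟩
  inter i j e e' he _ := ⟨i, e, he, Subsingleton.elim _ _⟩

/-- Free amalgamation inside the next level. -/
lemma Nice.amalg {k : ℕ} (h : Nice k) (p : (lev k).P) {i : ℕ} {f g : X i → X k}
    (hf : Emb i k f) (hg : Emb i k g) :
    ∃ q : (lev k).P, cham q ∘ g = cham p ∘ f ∧ ∀ a ∉ range f, ∀ b ∉ range g,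
      ∀ r : (lev k).P, cham p a ∈ range (cham r) → cham q b ∉ range (cham r) := by
  rcases hf.le.lt_or_eq with hi | rfl
  · obtain ⟨μ, hμ⟩ := h.homog i g f hi hg hf
    have hB : range f ∈ (lev k).B := (h.mem_B _).mpr ⟨i, hi, f, hf, rfl⟩
    refine ⟨p * Level.gen μ ⟨range f, hB⟩, ?_, ?_⟩
    · funext x
      have := Level.ch_mul_gen p μ ⟨range f, hB⟩ (g x) ⟨x, (hμ x).symm⟩
      simp only [comp_apply, cham]
      rw [this]
      exact congrArg _ (hμ x)
    · rintro a ha b hb r ⟨a', ha'⟩ ⟨b', hb'⟩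
      refine Level.not_common p r μ ⟨range f, hB⟩ a b a' b' ha ?_ ha'.symm hb'.symm
      rintro ⟨x, hx⟩
      apply hb
      refine ⟨x, MulAction.injective μ ?_⟩
      exact (hμ x).trans hx
  · rw [hf.eq_id, hg.eq_id]
    exact ⟨p, rfl, fun a ha => absurd ⟨a, rfl⟩ ha⟩

lemma Nice.biInter {k : ℕ} (h : Nice k) {ι : Type} (s : Finset ι) (hs : s.Nonempty)
    (T : ι → Set (X k)) (hT : ∀ i ∈ s, T i ∈ (lev k).B) : (⋂ i ∈ s, T i) ∈ (lev k).B := by
  classical
  induction hs using Finset.Nonempty.cons_induction with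
  | singleton i => simpa using hT i (by simp)
  | cons i s hi hs ih =>
    have h1 := hT i (by simp)
    have h2 := ih fun j hj => hT j (by simp [hj])
    obtain ⟨j, hj, e, he, hTe⟩ := (h.mem_B _).mp h1
    obtain ⟨j', hj', e', he', hTe'⟩ := (h.mem_B _).mp h2
    obtain ⟨l, d, hd, hr⟩ := h.inter j j' e e' he he'
    obtain ⟨c, hc, -⟩ := h.factor l j d e hd he (by rw [hr]; exact inter_subset_left)
    refine (h.mem_B _).mpr ⟨l, lt_of_le_of_lt hc.le hj, d, hd, ?_⟩
    rw [hr, ← hTe, ← hTe', Finset.cons_eq_insert, Finset.set_biInter_insert]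

/-- Two different chambers meet in a common proper member. -/
lemma Nice.cham_inter {k : ℕ} (h : Nice k) {p q : (lev k).P} (hpq : p ≠ q) :
    ∃ (l : ℕ) (d d' : X l → X k), Emb l k d ∧ Emb l k d' ∧ cham p ∘ d = cham q ∘ d' ∧
      ∀ x x', cham p x = cham q x' → x ∈ range d := by
  classical
  have hne : p.a ≠ q.a := fun e => hpq (Level.P.eq_of_a e)
  let _ := Fintype.ofFinite (lev k).I
  let s : Finset (lev k).I := Finset.univ.filter fun i => p.a i ≠ q.a i
  have hs : s.Nonempty := by
    obtain ⟨i, hi⟩ := Function.ne_iff.mp hne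
    exact ⟨i, by simpa [s] using hi⟩
  have hB := h.biInter s hs (fun i => {x | (lev k).OnMirror x i}) (by
    intro i _
    obtain ⟨j, hj, e, he, hTe⟩ := (h.mem_B _).mp i.2.2.2
    refine (h.mem_B _).mpr ⟨j, hj, _, h.smul i.1 j e hj he, ?_⟩
    ext x
    simp only [Level.OnMirror, mem_ofPred_eq, mem_range]
    rw [hTe]
    constructor
    · rintro ⟨y, hy⟩
      exact ⟨y, by rw [hy]; exact smul_inv_smul i.1 x⟩
    · rintro ⟨y, rfl⟩
      exact ⟨y, (inv_smul_smul i.1 (e y)).symm⟩)
  obtain ⟨l, hl, d, hd, hD⟩ := (h.mem_B _).mp hB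
  have hmem : ∀ y, y ∈ range d ↔ ∀ i, p.a i ≠ q.a i → (lev k).OnMirror y i := by
    intro y
    rw [← hD]
    simp [s]
  refine ⟨l, _, _, h.smul p.μ⁻¹ l d hl hd, h.smul q.μ⁻¹ l d hl hd, ?_, ?_⟩
  · funext x
    have e1 : p.μ • p.μ⁻¹ • d x = d x := smul_inv_smul _ _
    have e2 : q.μ • q.μ⁻¹ • d x = d x := smul_inv_smul _ _
    refine Level.pt_eq_iff.mpr ⟨e1.trans e2.symm, ?_⟩
    exact e1.symm ▸ (hmem _).mp ⟨x, rfl⟩
  · intro x x' hx
    obtain ⟨y, hy⟩ := (hmem _).mpr (Level.pt_eq_iff.mp hx).2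
    exact ⟨y, by simp only [hy]; exact inv_smul_smul _ _⟩

lemma Nice.succ {k : ℕ} (h : Nice k) : Nice (k + 1) where
  mem_B S := by
    constructor
    · rintro ⟨p, T, hT | rfl, rfl⟩
      · obtain ⟨j, hj, e, he, rfl⟩ := (h.mem_B _).mp hT
        exact ⟨j, by omega, _, Emb.step p he, (range_comp _ _).symm⟩
      · exact ⟨k, by omega, _, Emb.cham p, image_univ⟩
    · rintro ⟨j, hj, e, he, rfl⟩
      obtain ⟨p, e₀, he₀, rfl⟩ := he.inv (by omega)
      refine ⟨p, range e₀, ?_, range_comp _ _⟩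
      rcases he₀.le.lt_or_eq with hlt | rfl
      · exact Or.inl ((h.mem_B _).mpr ⟨j, hlt, e₀, he₀, rfl⟩)
      · exact Or.inr (by rw [he₀.eq_id]; exact range_id)
  smul σ j e hj he := by
    obtain ⟨p, e₀, he₀, rfl⟩ := he.inv (by omega)
    have : (fun x => σ • (cham p ∘ e₀) x) = cham ((show (lev k).P from σ) * p) ∘ e₀ := by
      funext x
      exact Level.smul_ch _ p (e₀ x)
    rw [this]
    exact Emb.step _ he₀
  homog j e e' hj he he' := by
    obtain ⟨p, e₀, he₀, rfl⟩ := he.inv (by omega)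
    obtain ⟨p', e₀', he₀', rfl⟩ := he'.inv (by omega)
    obtain ⟨q, hq, -⟩ := h.amalg p' he₀' he₀
    refine ⟨(q * p⁻¹ : (lev k).P), fun x => ?_⟩
    rw [← hq]
    have := Level.smul_ch (q * p⁻¹) p (e₀ x)
    rw [inv_mul_cancel_right] at this
    exact this
  factor i j e e' he he' hr := by
    rcases he'.le.lt_or_eq with hj | rfl
    · obtain ⟨p', e₀', he₀', rfl⟩ := he'.inv (by omega)
      rcases he.le.lt_or_eq with hi | rfl
      · obtain ⟨p, e₀, he₀, rfl⟩ := he.inv (by omega)
        by_cases hpp : p = p'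
        · subst hpp
          obtain ⟨d, hd, rfl⟩ := h.factor i j e₀ e₀' he₀ he₀' (by
            rintro _ ⟨x, rfl⟩
            obtain ⟨y, hy⟩ := hr ⟨x, rfl⟩
            exact ⟨y, cham_injective p hy⟩)
          exact ⟨d, hd, rfl⟩
        · obtain ⟨l, d, d', hd, hd', hdd, hin⟩ := h.cham_inter hpp
          obtain ⟨c, hc, rfl⟩ := h.factor i l e₀ d he₀ hd (by
            rintro _ ⟨x, rfl⟩
            obtain ⟨y, hy⟩ := hr ⟨x, rfl⟩
            exact hin _ _ hy.symm)
          obtain ⟨c', hc', hcc⟩ := h.factor i j (d' ∘ c) e₀' (hd'.comp hc) he₀' (by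
            rintro _ ⟨x, rfl⟩
            obtain ⟨y, hy⟩ := hr ⟨x, rfl⟩
            exact ⟨y, cham_injective p' (hy.trans (congrFun hdd (c x)))⟩)
          refine ⟨c', hc', ?_⟩
          rw [comp_assoc, ← hcc, ← comp_assoc, ← comp_assoc, hdd]
      · exfalso
        rw [he.eq_id] at hr
        obtain ⟨y, hy⟩ := hr ⟨extra k, rfl⟩
        exact cham_ne_extra _ _ hy
    · exact ⟨e, he, by rw [he'.eq_id]; rfl⟩
  inter i j e e' he he' := by
    rcases he'.le.lt_or_eq with hj | rfl
    · obtain ⟨p', e₀', he₀', rfl⟩ := he'.inv (by omega)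
      rcases he.le.lt_or_eq with hi | rfl
      · obtain ⟨p, e₀, he₀, rfl⟩ := he.inv (by omega)
        by_cases hpp : p = p'
        · subst hpp
          obtain ⟨l, d, hd, hr⟩ := h.inter i j e₀ e₀' he₀ he₀'
          refine ⟨l, _, Emb.step p hd, ?_⟩
          rw [range_comp, range_comp, range_comp, hr, image_inter (cham_injective p)]
        · obtain ⟨l, d, d', hd, hd', hdd, hin⟩ := h.cham_inter hpp
          obtain ⟨l₂, c₂, hc₂, hr₂⟩ := h.inter j l e₀' d' he₀' hd'
          obtain ⟨c₂', hc₂', rfl⟩ := h.factor l₂ l c₂ d' hc₂ hd'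
            (by rw [hr₂]; exact inter_subset_right)
          obtain ⟨l₃, c₃, hc₃, hr₃⟩ := h.inter i l₂ e₀ (d ∘ c₂') he₀ (hd.comp hc₂')
          refine ⟨l₃, _, Emb.step p hc₃, ?_⟩
          rw [range_comp, hr₃]
          ext y
          constructor
          · rintro ⟨x, ⟨⟨u, rfl⟩, ⟨v, hv⟩⟩, rfl⟩
            refine ⟨⟨u, rfl⟩, ?_⟩
            obtain ⟨⟨w, hw⟩, -⟩ : (d' ∘ c₂') v ∈ range e₀' ∩ range d' := hr₂ ▸ ⟨v, rfl⟩
            refine ⟨w, ?_⟩
            rw [← hv, comp_apply, hw]
            exact (congrFun hdd (c₂' v)).symm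
          · rintro ⟨⟨u, rfl⟩, ⟨w, hw⟩⟩
            obtain ⟨z, hz⟩ := hin _ _ hw.symm
            have hz' : d' z = e₀' w := by
              apply cham_injective p'
              rw [← show cham p (d z) = cham p' (d' z) from congrFun hdd z, hz]
              exact hw.symm
            obtain ⟨v, hv⟩ : e₀' w ∈ range (d' ∘ c₂') := hr₂ ▸ ⟨⟨w, rfl⟩, ⟨z, hz'⟩⟩
            have hvz : c₂' v = z := hd'.injective (hv.trans hz'.symm)
            exact ⟨e₀ u, ⟨⟨u, rfl⟩, ⟨v, by rw [comp_apply, hvz, hz]⟩⟩, rfl⟩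
      · exact ⟨j, _, he', by rw [he.eq_id]; simp⟩
    · exact ⟨i, e, he, by rw [he'.eq_id]; simp⟩

lemma nice (k : ℕ) : Nice k := by
  induction k with
  | zero => exact nice_zero
  | succ k ih => exact ih.succ

namespace Emb

lemma factor {i j k : ℕ} {e : X i → X k} {e' : X j → X k} (he : Emb i k e) (he' : Emb j k e')
    (h : range e ⊆ range e') : ∃ d, Emb i j d ∧ e = e' ∘ d :=
  (nice k).factor i j e e' he he' h

lemma inter {i j k : ℕ} {e : X i → X k} {e' : X j → X k} (he : Emb i k e) (he' : Emb j k e') :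
    ∃ l d, Emb l k d ∧ range d = range e ∩ range e' :=
  (nice k).inter i j e e' he he'

/-- Extension property. -/
lemma extend {i k : ℕ} {f : X i → X (k + 1)} {g : X i → X k} (hf : Emb i (k + 1) f)
    (hg : Emb i k g) : ∃ h, Emb k (k + 1) h ∧ h ∘ g = f := by
  obtain ⟨p, f₀, hf₀, rfl⟩ := hf.inv hg.le
  obtain ⟨q, hq, -⟩ := (nice k).amalg p hf₀ hg
  exact ⟨_, Emb.cham q, hq⟩

/-- Free amalgamation one level up. -/
lemma amalg {i k : ℕ} {f g : X i → X k} (hf : Emb i k f) (hg : Emb i k g) :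
    ∃ h₁ h₂, Emb k (k + 1) h₁ ∧ Emb k (k + 1) h₂ ∧ h₁ ∘ f = h₂ ∘ g ∧
      ∀ a ∉ range f, ∀ b ∉ range g, ∀ j e, Emb j (k + 1) e → h₁ a ∈ range e → h₂ b ∈ range e →
        j = k + 1 := by
  obtain ⟨q, hq, hfree⟩ := (nice k).amalg 1 hf hg
  refine ⟨_, _, Emb.cham 1, Emb.cham q, hq.symm, ?_⟩
  intro a ha b hb j e he h1 h2
  by_contra hj
  obtain ⟨r, e₀, -, rfl⟩ := he.inv (by have := he.le; omega)
  exact hfree a ha b hb r (range_comp_subset_range _ _ h1) (range_comp_subset_range _ _ h2)

end Emb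

lemma eq_zero_of_isEmpty {k : ℕ} (h : IsEmpty (X k)) : k = 0 := by
  cases k with
  | zero => rfl
  | succ k => exact (h.false (extra k)).elim

end Pool.Agent.MP_f24711_lc
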