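import Pool.Agent.MP_f24711_lc.Levels

/-!
Directed systems of charts, their countable limits and two limits of length `ω₁`.
-/

namespace Pool.Agent.MP_f24711_lc

open Function Set

/-- A directed family of charts in `Ω`. -/
@[ext]
structure Model (Ω : Type) where
  ch : ∀ k, Set (X k → Ω)
  inj : ∀ {k h}, h ∈ ch k → Injective h
  comp : ∀ {j k h e}, h ∈ ch k → Emb j k e → h ∘ e ∈ ch j
  dir : ∀ {k k' h h'}, h ∈ ch k → h' ∈ ch k' →
    ∃ m g e e', g ∈ ch m ∧ Emb k m e ∧ Emb k' m e' ∧ h = g ∘ e ∧ h' = g ∘ e'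
  base : ∃ h, h ∈ ch 0

namespace Model

variable {Ω : Type}

/-- The points covered by some chart. -/
def supp (N : Model Ω) : Set Ω := {x | ∃ k h, h ∈ N.ch k ∧ x ∈ range h}

/-- Extension of models. -/
def Le (N N' : Model Ω) : Prop := ∀ k, N.ch k ⊆ N'.ch k

lemma Le.refl (N : Model Ω) : N.Le N := fun _ => Subset.rfl

lemma Le.trans {N N' N'' : Model Ω} (h : N.Le N') (h' : N'.Le N'') : N.Le N'' :=
  fun k => (h k).trans (h' k)

lemma Le.supp {N N' : Model Ω} (h : N.Le N') : N.supp ⊆ N'.supp :=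
  fun _ ⟨k, g, hg, hx⟩ => ⟨k, g, h k hg, hx⟩

lemma range_subset (N : Model Ω) {k : ℕ} {h : X k → Ω} (hh : h ∈ N.ch k) : range h ⊆ N.supp :=
  fun _ hx => ⟨k, h, hh, hx⟩

lemma range_le_of {α β γ : Type} {G : γ → Ω} (hG : Injective G) {e : α → γ} {e' : β → γ}
    (h : range (G ∘ e) ⊆ range (G ∘ e')) : range e ⊆ range e' := by
  rintro _ ⟨x, rfl⟩
  obtain ⟨y, hy⟩ := h ⟨x, rfl⟩
  exact ⟨y, hG hy⟩

lemma factor (N : Model Ω) {j k : ℕ} {h : X k → Ω} {g : X j → Ω} (hh : h ∈ N.ch k)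
    (hg : g ∈ N.ch j) (hr : range g ⊆ range h) : ∃ d, Emb j k d ∧ g = h ∘ d := by
  obtain ⟨m, G, e, e', hG, he, he', rfl, rfl⟩ := N.dir hh hg
  obtain ⟨d, hd, rfl⟩ := he'.factor he (range_le_of (N.inj hG) hr)
  exact ⟨d, hd, rfl⟩

lemma inter (N : Model Ω) {j k : ℕ} {h : X k → Ω} {g : X j → Ω} (hh : h ∈ N.ch k)
    (hg : g ∈ N.ch j) : ∃ l d, d ∈ N.ch l ∧ range d = range h ∩ range g := by
  obtain ⟨m, G, e, e', hG, he, he', rfl, rfl⟩ := N.dir hh hg
  obtain ⟨l, d, hd, hr⟩ := he.inter he'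
  refine ⟨l, G ∘ d, N.comp hG hd, ?_⟩
  rw [range_comp, range_comp, range_comp, hr, image_inter (N.inj hG)]

lemma cover₂ (N : Model Ω) {j k : ℕ} {h : X k → Ω} {g : X j → Ω} (hh : h ∈ N.ch k)
    (hg : g ∈ N.ch j) : ∃ m G, G ∈ N.ch m ∧ range h ⊆ range G ∧ range g ⊆ range G := by
  obtain ⟨m, G, e, e', hG, -, -, rfl, rfl⟩ := N.dir hh hg
  exact ⟨m, G, hG, range_comp_subset_range _ _, range_comp_subset_range _ _⟩

lemma cover (N : Model Ω) {T : Set Ω} (hT : T.Finite) (hs : T ⊆ N.supp) :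
    ∃ k h, h ∈ N.ch k ∧ T ⊆ range h := by
  induction T, hT using Set.Finite.induction_on with
  | empty =>
    obtain ⟨h, hh⟩ := N.base
    exact ⟨0, h, hh, empty_subset _⟩
  | @insert a T _ _ ih =>
    obtain ⟨k, h, hh, hT⟩ := ih ((subset_insert _ _).trans hs)
    obtain ⟨j, g, hg, ha⟩ := hs (mem_insert a T)
    obtain ⟨m, G, hG, h1, h2⟩ := N.cover₂ hh hg
    exact ⟨m, G, hG, insert_subset (h2 ha) (hT.trans h1)⟩

lemma Le.mem_of_range {N N' : Model Ω} (hle : N.Le N') {k : ℕ} {h : X k → Ω} (hh : h ∈ N'.ch k)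
    (hr : range h ⊆ N.supp) : h ∈ N.ch k := by
  obtain ⟨m, G, hG, hs⟩ := N.cover (finite_range h) hr
  obtain ⟨d, hd, rfl⟩ := N'.factor (hle m hG) hh hs
  exact N.comp hG hd

lemma card_le : ∀ {j k : ℕ}, j ≤ k → Nat.card (X j) ≤ Nat.card (X k) := by
  intro j k h
  obtain ⟨e, he⟩ := Emb.exists_of_le h
  exact Nat.card_le_card_of_injective e he.injective

/-- An infinite model has charts of arbitrarily large rank around any chart. -/
lemma exists_large (N : Model Ω) (hN : N.supp.Infinite) {k : ℕ} {h : X k → Ω} (hh : h ∈ N.ch k)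
    (m : ℕ) : ∃ m' G e, m < m' ∧ G ∈ N.ch m' ∧ Emb k m' e ∧ h = G ∘ e := by
  obtain ⟨T, hT, hc⟩ := hN.exists_subset_card_eq (Nat.card (X m) + 1)
  obtain ⟨j, g, hg, hTg⟩ := N.cover T.finite_toSet hT
  obtain ⟨m', G, e, e', hG, he, he', rfl, rfl⟩ := N.dir hh hg
  refine ⟨m', G, e, ?_, hG, he, rfl⟩
  by_contra hlt
  have h1 : Nat.card (X j) ≤ Nat.card (X m) := card_le (by have := he'.le; omega)
  have h2 : (T : Set Ω).ncard ≤ (range (G ∘ e')).ncard := ncard_le_ncard hTg (finite_range _)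
  have h3 : (range (G ∘ e')).ncard ≤ Nat.card (X j) := by
    rw [← image_univ, ← ncard_univ]
    exact ncard_image_le (finite_univ)
  rw [ncard_coe_finset] at h2
  omega

/-- Union of a nonempty chain of models. -/
def chainUnion (c : Set (Model Ω)) (hc : c.Nonempty) (hch : ∀ N ∈ c, ∀ N' ∈ c, N.Le N' ∨ N'.Le N) :
    Model Ω where
  ch k := {h | ∃ N ∈ c, h ∈ N.ch k}
  inj := fun ⟨N, _, h⟩ => N.inj h
  comp := fun ⟨N, hN, h⟩ he => ⟨N, hN, N.comp h he⟩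
  dir := by
    rintro k k' h h' ⟨N, hN, hh⟩ ⟨N', hN', hh'⟩
    rcases hch N hN N' hN' with hle | hle
    · obtain ⟨m, g, e, e', hg, r⟩ := N'.dir (hle _ hh) hh'
      exact ⟨m, g, e, e', ⟨N', hN', hg⟩, r⟩
    · obtain ⟨m, g, e, e', hg, r⟩ := N.dir hh (hle _ hh')
      exact ⟨m, g, e, e', ⟨N, hN, hg⟩, r⟩
  base := by
    obtain ⟨N, hN⟩ := hc
    obtain ⟨h, hh⟩ := N.base
    exact ⟨h, N, hN, hh⟩

lemma le_chainUnion {c : Set (Model Ω)} (hc : c.Nonempty)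
    (hch : ∀ N ∈ c, ∀ N' ∈ c, N.Le N' ∨ N'.Le N) {N : Model Ω} (hN : N ∈ c) :
    N.Le (chainUnion c hc hch) := fun _ _ hh => ⟨N, hN, hh⟩

lemma mem_supp_chainUnion {c : Set (Model Ω)} (hc : c.Nonempty)
    (hch : ∀ N ∈ c, ∀ N' ∈ c, N.Le N' ∨ N'.Le N) {x : Ω} (hx : x ∈ (chainUnion c hc hch).supp) :
    ∃ N ∈ c, x ∈ N.supp := by
  obtain ⟨k, h, ⟨N, hN, hh⟩, hx⟩ := hx
  exact ⟨N, hN, k, h, hh, hx⟩

/-! ### Back and forth -/

lemma forth {Ω' : Type} (N' : Model Ω') (hN' : N'.supp.Infinite) {k m : ℕ}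
    {h' : X k → Ω'} (hh' : h' ∈ N'.ch k) {e : X k → X m} (he : Emb k m e) :
    ∃ g', g' ∈ N'.ch m ∧ h' = g' ∘ e := by
  obtain ⟨m', G, f, hm, hG, hf, rfl⟩ := N'.exists_large hN' hh' m
  obtain ⟨m'', rfl⟩ : ∃ m'', m' = m'' + 1 := ⟨m' - 1, by omega⟩
  obtain ⟨u, hu⟩ := Emb.exists_of_le (show m ≤ m'' by omega)
  obtain ⟨H, hH, hHf⟩ := hf.extend (hu.comp he)
  exact ⟨G ∘ (H ∘ u), N'.comp hG (hH.comp hu), by rw [← hHf]; rfl⟩

/-- A pair of charts of the same rank. -/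
structure Pr {Ω Ω' : Type} (N : Model Ω) (N' : Model Ω') where
  k : ℕ
  h : X k → Ω
  h' : X k → Ω'
  mem : h ∈ N.ch k
  mem' : h' ∈ N'.ch k

/-- Extension of pairs of charts. -/
def Pr.Le {Ω' : Type} {N : Model Ω} {N' : Model Ω'} (p q : Pr N N') : Prop :=
  ∃ e, Emb p.k q.k e ∧ p.h = q.h ∘ e ∧ p.h' = q.h' ∘ e

lemma Pr.Le.trans {Ω' : Type} {N : Model Ω} {N' : Model Ω'} {p q r : Pr N N'} (h : p.Le q)
    (h' : q.Le r) : p.Le r := by
  obtain ⟨e, he, h1, h2⟩ := h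
  obtain ⟨e', he', h1', h2'⟩ := h'
  exact ⟨e' ∘ e, he'.comp he, by rw [h1, h1']; rfl, by rw [h2, h2']; rfl⟩

lemma Pr.step {Ω' : Type} {N : Model Ω} {N' : Model Ω'} (hN : N.supp.Infinite)
    (hN' : N'.supp.Infinite) (p : Pr N N') {x : Ω} {x' : Ω'} (hx : x ∈ N.supp)
    (hx' : x' ∈ N'.supp) : ∃ q : Pr N N', p.Le q ∧ x ∈ range q.h ∧ x' ∈ range q.h' := by
  obtain ⟨j, g₀, hg₀, hxg⟩ := hx
  obtain ⟨m, g, e, e₀, hg, he, -, h1, rfl⟩ := N.dir p.mem hg₀
  obtain ⟨g', hg', h2⟩ := N'.forth hN' p.mem' he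
  obtain ⟨j', g₀', hg₀', hxg'⟩ := hx'
  obtain ⟨m', G', f, f₀, hG', hf, -, h3, rfl⟩ := N'.dir hg' hg₀'
  obtain ⟨G, hG, h4⟩ := N.forth hN hg hf
  refine ⟨⟨m', G, G', hG, hG'⟩, ⟨f ∘ e, hf.comp he, ?_, ?_⟩, ?_, ?_⟩
  · rw [h1, h4]; rfl
  · rw [h2, h3]; rfl
  · have := range_comp_subset_range _ _ hxg
    rw [h4] at this
    exact range_comp_subset_range _ _ this
  · exact range_comp_subset_range _ _ hxg'

lemma exists_seq {α : Type} (r : α → α → Prop) (P : ℕ → α → Prop) (a₀ : α)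
    (h : ∀ n a, ∃ b, r a b ∧ P n b) :
    ∃ s : ℕ → α, s 0 = a₀ ∧ ∀ n, r (s n) (s (n + 1)) ∧ P n (s (n + 1)) := by
  choose f hf using h
  exact ⟨fun n => Nat.rec a₀ f n, rfl, fun n => hf n _⟩

lemma finite_subset_of_mono {α : Type} {A : ℕ → Set α} (hA : Monotone A) {T : Set α}
    (hT : T.Finite) (h : ∀ x ∈ T, ∃ n, x ∈ A n) : ∃ n, T ⊆ A n := by
  induction T, hT using Set.Finite.induction_on with
  | empty => exact ⟨0, empty_subset _⟩
  | @insert a T _ _ ih =>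
    obtain ⟨n, hn⟩ := ih fun x hx => h x (mem_insert_of_mem _ hx)
    obtain ⟨m, hm⟩ := h a (mem_insert _ _)
    exact ⟨max n m, insert_subset (hA (le_max_right _ _) hm) (hn.trans (hA (le_max_left _ _)))⟩

/-- All countably infinite models are isomorphic. -/
theorem countable_unique {Ω' : Type} [Countable Ω] [Countable Ω'] [Infinite Ω] [Infinite Ω']
    (N : Model Ω) (N' : Model Ω') (hN : N.supp = univ) (hN' : N'.supp = univ) :
    ∃ φ : Ω ≃ Ω', ∀ k h, h ∈ N.ch k ↔ φ ∘ h ∈ N'.ch k := by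
  obtain ⟨f, hf⟩ := exists_surjective_nat Ω
  obtain ⟨f', hf'⟩ := exists_surjective_nat Ω'
  obtain ⟨b, hb⟩ := N.base
  obtain ⟨b', hb'⟩ := N'.base
  obtain ⟨s, -, hs⟩ := exists_seq (α := Pr N N') Pr.Le
    (fun n q => f n ∈ range q.h ∧ f' n ∈ range q.h') ⟨0, b, b', hb, hb'⟩ (fun n p =>
      Pr.step (hN ▸ infinite_univ) (hN' ▸ infinite_univ) p (hN ▸ mem_univ _) (hN' ▸ mem_univ _))
  have hmono : ∀ n m, n ≤ m → (s n).Le (s m) := by
    intro n m hnm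
    induction hnm with
    | refl => exact ⟨id, Emb.id, rfl, rfl⟩
    | step _ ih => exact ih.trans (hs _).1
  let R : Ω → Ω' → Prop := fun x x' => ∃ n y, (s n).h y = x ∧ (s n).h' y = x'
  have hR : ∀ x x' y y', R x x' → R y y' → (x = y ↔ x' = y') := by
    rintro _ _ _ _ ⟨n, u, rfl, rfl⟩ ⟨m, v, rfl, rfl⟩
    obtain ⟨e, -, h1, h2⟩ := hmono n (max n m) (le_max_left _ _)
    obtain ⟨e', -, h1', h2'⟩ := hmono m (max n m) (le_max_right _ _)
    rw [h1, h2, h1', h2']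
    simp only [comp_apply, (N.inj (s _).mem).eq_iff, (N'.inj (s _).mem').eq_iff]
  have hex : ∀ x, ∃ x', R x x' := by
    intro x
    obtain ⟨n, rfl⟩ := hf x
    obtain ⟨y, hy⟩ := (hs n).2.1
    exact ⟨_, n + 1, y, hy, rfl⟩
  have hex' : ∀ x', ∃ x, R x x' := by
    intro x
    obtain ⟨n, rfl⟩ := hf' x
    obtain ⟨y, hy⟩ := (hs n).2.2
    exact ⟨_, n + 1, y, rfl, hy⟩
  choose φ hφ using hex
  have hbij : Bijective φ := by
    refine ⟨fun x y h => (hR _ _ _ _ (hφ x) (hφ y)).mpr h, fun x' => ?_⟩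
    obtain ⟨x, hx⟩ := hex' x'
    exact ⟨x, (hR _ _ _ _ (hφ x) hx).mp rfl⟩
  have hφs : ∀ n, φ ∘ (s n).h = (s n).h' := fun n => funext fun y =>
    (hR _ _ _ _ (hφ _) ⟨n, y, rfl, rfl⟩).mp rfl
  refine ⟨Equiv.ofBijective φ hbij, fun k h => ⟨fun hh => ?_, fun hh => ?_⟩⟩
  · obtain ⟨n, hn⟩ := finite_subset_of_mono (A := fun n => range (s n).h) (fun n m hnm => by
      obtain ⟨e, -, h1, -⟩ := hmono n m hnm
      simp only [h1]
      exact range_comp_subset_range _ _) (finite_range h) (fun x _ => by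
      obtain ⟨n, y, hy, -⟩ := hφ x
      exact ⟨n, y, hy⟩)
    obtain ⟨d, hd, rfl⟩ := N.factor (s n).mem hh hn
    have := N'.comp (s n).mem' hd
    rw [← hφs] at this
    exact this
  · obtain ⟨n, hn⟩ := finite_subset_of_mono (A := fun n => range (s n).h') (fun n m hnm => by
      obtain ⟨e, -, -, h1⟩ := hmono n m hnm
      simp only [h1]
      exact range_comp_subset_range _ _) (finite_range (φ ∘ h)) (fun x' _ => by
      obtain ⟨x, n, y, -, hy⟩ := hex' x'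
      exact ⟨n, y, hy⟩)
    obtain ⟨d, hd, hd'⟩ := N'.factor (s n).mem' hh hn
    have : h = (s n).h ∘ d := by
      apply hbij.1.comp_left
      rw [← hφs] at hd'
      exact hd'
    rw [this]
    exact N.comp (s n).mem hd

/-! ### One countable extension step -/

/-- A finite piece of an extension of `N`. -/
structure Cond (N : Model Ω) where
  s : ℕ
  c : X s → Ω
  inj : Injective c
  i : ℕ
  e : X i → X s
  emb : Emb i s e
  mem : c ∘ e ∈ N.ch i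
  tr : ∀ y, c y ∈ N.supp → y ∈ range e

/-- Extension of finite pieces. -/
def Cond.Le {N : Model Ω} (p q : Cond N) : Prop := ∃ u, Emb p.s q.s u ∧ p.c = q.c ∘ u

lemma exists_fresh {Y : Type} [Finite Y] (A : Set Y) (p : Y → Ω) (hp : InjOn p A) {F : Set Ω}
    (hF : F.Infinite) : ∃ c : Y → Ω, Injective c ∧ (∀ y ∈ A, c y = p y) ∧ ∀ y ∉ A, c y ∈ F := by
  classical
  have hF' : (F \ range p).Infinite := hF.sdiff (finite_range p)
  have := hF'.to_subtype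
  obtain ⟨ι⟩ : Nonempty (Y ↪ ↥(F \ range p)) := by
    have := Fintype.ofFinite Y
    exact ⟨(Fintype.equivFin Y).toEmbedding.trans
      (Fin.valEmbedding.trans (Infinite.natEmbedding _))⟩
  refine ⟨fun y => if y ∈ A then p y else ι y, ?_, fun y hy => if_pos hy,
    fun y hy => by simp only [if_neg hy]; exact (ι y).2.1⟩
  intro y z h
  by_cases hy : y ∈ A <;> by_cases hz : z ∈ A
  · simp only [if_pos hy, if_pos hz] at h
    exact hp hy hz h
  · simp only [if_pos hy, if_neg hz] at h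
    exact absurd ⟨y, h⟩ (ι z).2.2
  · simp only [if_neg hy, if_pos hz] at h
    exact absurd ⟨z, h.symm⟩ (ι y).2.2
  · simp only [if_neg hy, if_neg hz] at h
    exact ι.injective (Subtype.ext h)

lemma Cond.amalg {N : Model Ω} (hF : N.suppᶜ.Infinite) (p : Cond N) {t : ℕ} {g : X t → Ω}
    (hg : g ∈ N.ch t) (hpg : range (p.c ∘ p.e) ⊆ range g) {k : ℕ} (hs : p.s ≤ k) (ht : t ≤ k) :
    ∃ q : Cond N, p.Le q ∧ q.s = k + 1 ∧ q.i = t ∧ range (q.c ∘ q.e) = range g ∧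
      ∀ a ∈ range p.c, a ∉ N.supp → ∀ y ∈ range g, y ∉ range p.c →
        ∀ j d, Emb j q.s d → a ∈ range (q.c ∘ d) → y ∈ range (q.c ∘ d) → j = k + 1 := by
  classical
  obtain ⟨e', he', hb⟩ := N.factor hg p.mem hpg
  obtain ⟨u, hu⟩ := Emb.exists_of_le hs
  obtain ⟨v, hv⟩ := Emb.exists_of_le ht
  obtain ⟨h₁, h₂, hh₁, hh₂, hcomm, hfree⟩ := (hu.comp p.emb).amalg (hv.comp he')
  have iU : Injective (h₁ ∘ u) := (hh₁.comp hu).injective
  have iV : Injective (h₂ ∘ v) := (hh₂.comp hv).injective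
  have hc : ∀ z, h₁ (u (p.e z)) = h₂ (v (e' z)) := fun z => congrFun hcomm z
  have hbz : ∀ z, p.c (p.e z) = g (e' z) := fun z => congrFun hb z
  have hmeet : ∀ x y, h₁ (u x) = h₂ (v y) → ∃ z, x = p.e z ∧ y = e' z := by
    intro x y hxy
    by_cases hx : u x ∈ range (u ∘ p.e)
    · obtain ⟨z, hz⟩ := hx
      have hz' : p.e z = x := hu.injective hz
      refine ⟨z, hz'.symm, iV ?_⟩
      rw [comp_apply, ← hxy, ← hz', hc]
      rfl
    · by_cases hy : v y ∈ range (v ∘ e')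
      · obtain ⟨z, hz⟩ := hy
        have hz' : e' z = y := hv.injective hz
        refine ⟨z, iU ?_, hz'.symm⟩
        rw [comp_apply, hxy, ← hz', ← hc]
        rfl
      · have := hfree _ hx _ hy k h₁ hh₁ ⟨_, rfl⟩ ⟨_, hxy⟩
        omega
  have hmeet' : ∀ x y, p.c x = g y → ∃ z, x = p.e z ∧ y = e' z := by
    intro x y hxy
    obtain ⟨z, rfl⟩ := p.tr x (hxy ▸ N.range_subset hg ⟨y, rfl⟩)
    exact ⟨z, rfl, N.inj hg (by rw [← hxy, hbz])⟩
  obtain ⟨x₀, -⟩ := hF.nonempty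
  let P : X (k + 1) → Ω := extend (h₁ ∘ u) p.c (extend (h₂ ∘ v) g fun _ => x₀)
  have hP1 : ∀ x, P (h₁ (u x)) = p.c x := fun x => iU.extend_apply _ _ x
  have hP2 : ∀ y, P (h₂ (v y)) = g y := by
    intro y
    by_cases hy : ∃ x, (h₁ ∘ u) x = h₂ (v y)
    · obtain ⟨x, hx⟩ := hy
      obtain ⟨z, rfl, rfl⟩ := hmeet x y hx
      rw [← hc, hP1, hbz]
    · simp only [P]
      rw [extend_apply' _ _ _ hy]
      exact iV.extend_apply _ _ y
  obtain ⟨c, hci, hcA, hcF⟩ := exists_fresh (range (h₁ ∘ u) ∪ range (h₂ ∘ v)) P (by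
    rintro _ (⟨x, rfl⟩ | ⟨x, rfl⟩) _ (⟨y, rfl⟩ | ⟨y, rfl⟩) hxy <;>
      simp only [comp_apply, hP1, hP2] at hxy ⊢
    · rw [p.inj hxy]
    · obtain ⟨z, rfl, rfl⟩ := hmeet' _ _ hxy
      exact hc z
    · obtain ⟨z, rfl, rfl⟩ := hmeet' _ _ hxy.symm
      exact (hc z).symm
    · rw [N.inj hg hxy]) hF
  have hc1 : ∀ x, c (h₁ (u x)) = p.c x := fun x => (hcA _ (Or.inl ⟨x, rfl⟩)).trans (hP1 x)
  have hc2 : ∀ y, c (h₂ (v y)) = g y := fun y => (hcA _ (Or.inr ⟨y, rfl⟩)).trans (hP2 y)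
  have hcg : c ∘ (h₂ ∘ v) = g := funext hc2
  refine ⟨⟨k + 1, c, hci, t, h₂ ∘ v, hh₂.comp hv, hcg ▸ hg, ?_⟩,
    ⟨h₁ ∘ u, hh₁.comp hu, (funext hc1).symm⟩, rfl, rfl, congrArg range hcg, ?_⟩
  · intro y hy
    by_cases hA : y ∈ range (h₁ ∘ u) ∪ range (h₂ ∘ v)
    · rcases hA with ⟨x, rfl⟩ | hA
      · rw [comp_apply, hc1] at hy
        obtain ⟨z, rfl⟩ := p.tr x hy
        exact ⟨e' z, (hc z).symm⟩
      · exact hA
    · exact absurd hy (hcF y hA)
  · rintro _ ⟨x, rfl⟩ hx _ ⟨y, rfl⟩ hy j d hd ⟨x', hx'⟩ ⟨y', hy'⟩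
    refine hfree (u x) ?_ (v y) ?_ j d hd ⟨x', hci (hx'.trans (hc1 x).symm)⟩
      ⟨y', hci (hy'.trans (hc2 y).symm)⟩
    · rintro ⟨z, hz⟩
      apply hx
      rw [← hu.injective hz]
      exact N.range_subset p.mem ⟨z, rfl⟩
    · rintro ⟨z, hz⟩
      apply hy
      rw [← hv.injective hz]
      exact ⟨p.e z, hbz z⟩

lemma Cond.limit {N : Model Ω} (hc : N.supp.Countable) [Nonempty Ω] (Inv : Cond N → Prop)
    (Stp : ℕ → Cond N → Prop)
    (step : ∀ j x p, Inv p →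
      ∃ q, Cond.Le p q ∧ Inv q ∧ (x ∈ N.supp → x ∈ range (q.c ∘ q.e)) ∧ Stp j q)
    (p₀ : Cond N) (h₀ : Inv p₀) :
    ∃ N' : Model Ω, N.Le N' ∧ N'.supp.Countable ∧ p₀.c ∈ N'.ch p₀.s ∧
      ∀ T : Set Ω, T.Finite → T ⊆ N'.supp → ∀ j₀, ∃ j q, j₀ ≤ j ∧ Inv q ∧ Stp j q ∧
        q.c ∈ N'.ch q.s ∧ T ⊆ range q.c := by
  obtain ⟨f, hf⟩ := countable_iff_exists_subset_range.mp hc
  obtain ⟨s, hs0, hs⟩ := exists_seq (α := {p : Cond N // Inv p}) (fun p q => p.1.Le q.1)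
    (fun n q => (f n ∈ N.supp → f n ∈ range (q.1.c ∘ q.1.e)) ∧ Stp n q.1) ⟨p₀, h₀⟩ (fun n p => by
      obtain ⟨q, h1, h2, h3⟩ := step n (f n) p.1 p.2
      exact ⟨⟨q, h2⟩, h1, h3⟩)
  have hmono : ∀ n m, n ≤ m → (s n).1.Le (s m).1 := by
    intro n m hnm
    induction hnm with
    | refl => exact ⟨id, Emb.id, rfl⟩
    | step _ ih =>
      obtain ⟨u, hu, h1⟩ := ih
      obtain ⟨u', hu', h2⟩ := (hs _).1
      exact ⟨u' ∘ u, hu'.comp hu, by rw [h1, h2]; rfl⟩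
  have hrm : Monotone fun n => range (s n).1.c := fun n m hnm => by
    obtain ⟨e, -, h1⟩ := hmono n m hnm
    simp only [h1]
    exact range_comp_subset_range _ _
  let N' : Model Ω :=
    { ch := fun k => {h | ∃ n d, Emb k (s n).1.s d ∧ h = (s n).1.c ∘ d}
      inj := by
        rintro k _ ⟨n, d, hd, rfl⟩
        exact (s n).1.inj.comp hd.injective
      comp := by
        rintro j k _ e ⟨n, d, hd, rfl⟩ he
        exact ⟨n, d ∘ e, hd.comp he, rfl⟩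
      dir := by
        rintro k k' _ _ ⟨n, d, hd, rfl⟩ ⟨m, d', hd', rfl⟩
        obtain ⟨u, hu, h1⟩ := hmono n (max n m) (le_max_left _ _)
        obtain ⟨u', hu', h2⟩ := hmono m (max n m) (le_max_right _ _)
        exact ⟨_, (s (max n m)).1.c, u ∘ d, u' ∘ d', ⟨max n m, id, Emb.id, rfl⟩, hu.comp hd,
          hu'.comp hd', by rw [h1]; rfl, by rw [h2]; rfl⟩
      base := by
        obtain ⟨d, hd⟩ := Emb.exists_of_le (Nat.zero_le (s 0).1.s)
        exact ⟨_, 0, d, hd, rfl⟩ }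
  have hmem : ∀ n, (s n).1.c ∈ N'.ch (s n).1.s := fun n => ⟨n, id, Emb.id, rfl⟩
  have hsupp : ∀ x ∈ N'.supp, ∃ n, x ∈ range (s n).1.c := by
    rintro x ⟨k, _, ⟨n, d, -, rfl⟩, hx⟩
    exact ⟨n, range_comp_subset_range _ _ hx⟩
  refine ⟨N', ?_, ?_, ?_, ?_⟩
  · intro k h hh
    obtain ⟨n, hn⟩ := finite_subset_of_mono hrm (finite_range h) (fun x hx => by
      have hx' := N.range_subset hh hx
      obtain ⟨n, rfl⟩ := hf hx'
      exact ⟨n + 1, range_comp_subset_range _ _ ((hs n).2.1 hx')⟩)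
    obtain ⟨d, hd, rfl⟩ := N.factor (s n).1.mem hh (fun x hx => by
      obtain ⟨y, rfl⟩ := hn hx
      obtain ⟨z, rfl⟩ := (s n).1.tr y (N.range_subset hh hx)
      exact ⟨z, rfl⟩)
    exact ⟨n, (s n).1.e ∘ d, (s n).1.emb.comp hd, rfl⟩
  · refine (countable_iUnion fun n => (finite_range (s n).1.c).countable).mono fun x hx => ?_
    exact mem_iUnion.mpr (hsupp x hx)
  · have := hmem 0
    rw [hs0] at this
    exact this
  · intro T hT hTs j₀
    obtain ⟨n, hn⟩ := finite_subset_of_mono hrm hT fun x hx => hsupp x (hTs hx)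
    exact ⟨max n j₀, (s (max n j₀ + 1)).1, le_max_right _ _, (s _).2, (hs _).2.2, hmem _,
      hn.trans (hrm (by have := le_max_left n j₀; omega))⟩

/-- The piece consisting of one new point. -/
lemma exists_point_cond (N : Model Ω) {a : Ω} (ha : a ∉ N.supp) :
    ∃ p : Cond N, range p.c = {a} := by
  obtain ⟨e, he⟩ := Emb.exists_of_le (Nat.zero_le 1)
  obtain ⟨b, hb⟩ := N.base
  have hsub : ∀ y : X 1, y = extra 0 := by
    intro y
    rcases Level.Y.cases (l := lev 0) y with h | ⟨x, -, -⟩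
    · exact h
    · exact (show X 0 from x) |> isEmptyElim
  refine ⟨⟨1, fun _ => a, fun y z _ => (hsub y).trans (hsub z).symm, 0, e, he, ?_,
    fun _ h => absurd h ha⟩, ?_⟩
  · rwa [Subsingleton.elim ((fun _ => a) ∘ e) b]
  · have : Nonempty (X 1) := ⟨extra 0⟩
    exact range_const

/-! ### The invariant -/

/-- The point `a` has fast growing closures over `D`. -/
def Fast (N : Model Ω) (D : Set Ω) (a : Ω) : Prop :=
  ∀ t g, g ∈ N.ch t → a ∈ range g → ∀ n b, b ∈ N.ch n → range b ⊆ D → range b ⊆ range g →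
    2 * n ≤ t

/-- All finite sets have slowly growing closures over `D`. -/
def Slow (N : Model Ω) (D : Set Ω) : Prop :=
  ∀ T : Set Ω, T.Finite → T ⊆ N.supp → ∀ c, ∃ n b t g, b ∈ N.ch n ∧ range b ⊆ D ∧ g ∈ N.ch t ∧
    range b ⊆ range g ∧ T ⊆ range g ∧ t + c ≤ 2 * n

lemma Fast.mono {N N' : Model Ω} (hle : N.Le N') {D : Set Ω} (hD : D ⊆ N.supp) {a : Ω}
    (ha : a ∈ N.supp) (h : N.Fast D a) : N'.Fast D a := by
  intro t g hg hag n b hb hbD hbg
  have hb' := hle.mem_of_range hb (hbD.trans hD)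
  obtain ⟨m, G, hG, hs⟩ := N.cover ((finite_range b).insert a)
    (insert_subset ha (hbD.trans hD))
  obtain ⟨l, d, hd, hr⟩ := N'.inter hg (hle m hG)
  have hd' := hle.mem_of_range hd (by
    rw [hr]; exact inter_subset_right.trans (N.range_subset hG))
  obtain ⟨u, hu, -⟩ := N'.factor hg hd (by rw [hr]; exact inter_subset_left)
  have := h l d hd' (by rw [hr]; exact ⟨hag, hs (mem_insert _ _)⟩) n b hb' hbD
    (by rw [hr]; exact subset_inter hbg ((subset_insert _ _).trans hs))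
  exact this.trans hu.le

lemma compl_infinite [Uncountable Ω] {N : Model Ω} (hc : N.supp.Countable) :
    N.suppᶜ.Infinite := by
  intro h
  have := hc.union h.countable
  rw [union_compl_self] at this
  exact not_countable_univ this

lemma exists_fast_ext [Uncountable Ω] (N : Model Ω) (hc : N.supp.Countable) :
    ∃ N' : Model Ω, N.Le N' ∧ N'.supp.Countable ∧ ¬ N'.supp ⊆ N.supp ∧
      ∃ a ∈ N'.supp, N'.Fast N.supp a := by
  have hF := compl_infinite hc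
  obtain ⟨a, ha⟩ := hF.nonempty
  obtain ⟨p₀, hp₀⟩ := N.exists_point_cond ha
  obtain ⟨N', hle, hc', hp, hlim⟩ := Cond.limit hc
    (fun p => a ∈ range p.c ∧ ∀ t d, Emb t p.s d → a ∈ range (p.c ∘ d) →
      ∀ n b, b ∈ N.ch n → range b ⊆ range (p.c ∘ d) → 2 * n ≤ t)
    (fun _ _ => True) (by
      intro j x p ⟨hap, hp⟩
      by_cases hx : x ∈ N.supp
      swap
      · exact ⟨p, ⟨id, Emb.id, rfl⟩, ⟨hap, hp⟩, fun h => absurd h hx, trivial⟩
      obtain ⟨i, g₀, hg₀, hxg⟩ := hx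
      obtain ⟨t, g, hg, h1, h2⟩ := N.cover₂ p.mem hg₀
      obtain ⟨q, ⟨u, hu, hpq⟩, hqs, hqi, hqr, hfree⟩ := p.amalg hF hg h1
        (k := max p.s (2 * t)) (le_max_left _ _) (by have := le_max_right p.s (2 * t); omega)
      have hrpq : range p.c ⊆ range q.c := by rw [hpq]; exact range_comp_subset_range _ _
      refine ⟨q, ⟨u, hu, hpq⟩, ⟨hrpq hap, ?_⟩, fun _ => hqr ▸ h2 hxg, trivial⟩
      intro t' d hd had n b hb hbd
      by_cases hbp : range b ⊆ range p.c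
      · obtain ⟨l, w, hw, hr⟩ := hd.inter hu
        obtain ⟨w₁, hw₁, -⟩ := hw.factor hd (by rw [hr]; exact inter_subset_left)
        obtain ⟨w₂, hw₂, rfl⟩ := hw.factor hu (by rw [hr]; exact inter_subset_right)
        have key : ∀ z ∈ range (q.c ∘ d), z ∈ range p.c → z ∈ range (p.c ∘ w₂) := by
          rintro _ ⟨y, rfl⟩ ⟨y', hy'⟩
          rw [hpq] at hy'
          obtain ⟨y'', hy''⟩ : d y ∈ range (u ∘ w₂) := hr ▸ ⟨⟨y, rfl⟩, ⟨y', q.inj hy'⟩⟩
          exact ⟨y'', by rw [hpq]; exact congrArg q.c hy''⟩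
        exact (hp l w₂ hw₂ (key a had hap) n b hb
          (fun z hz => key z (hbd hz) (hbp hz))).trans hw₁.le
      · obtain ⟨y, hyb, hyp⟩ := not_subset.mp hbp
        have hbg : range b ⊆ range g := by
          intro z hz
          obtain ⟨z', rfl⟩ := hbd hz
          obtain ⟨z'', hz''⟩ := q.tr (d z') (N.range_subset hb hz)
          exact hqr ▸ ⟨z'', congrArg q.c hz''⟩
        obtain ⟨w, hw, -⟩ := N.factor hg hb hbg
        have h3 := hfree a hap ha y (hbg hyb) hyp t' d hd had (hbd hyb)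
        have h4 := hw.le
        have h5 := le_max_right p.s (2 * t)
        omega) p₀ (by
      refine ⟨hp₀ ▸ rfl, fun t d _ _ n b hb hbd => ?_⟩
      have : n = 0 := eq_zero_of_isEmpty ⟨fun z => by
        have h1 := range_comp_subset_range _ _ (hbd ⟨z, rfl⟩)
        rw [hp₀] at h1
        exact ha (h1 ▸ N.range_subset hb ⟨z, rfl⟩)⟩
      omega)
  have haN' : a ∈ N'.supp := N'.range_subset hp (hp₀ ▸ rfl)
  refine ⟨N', hle, hc', fun h => ha (h haN'), a, haN', ?_⟩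
  intro t g hg hag n b hb hbD hbg
  obtain ⟨j, q, -, ⟨-, hq⟩, -, hqm, hT⟩ := hlim (range g) (finite_range g) (N'.range_subset hg) 0
  obtain ⟨d, hd, rfl⟩ := N'.factor hqm hg hT
  exact hq t d hd hag n b (hle.mem_of_range hb hbD) hbg

lemma exists_slow_ext [Uncountable Ω] (N : Model Ω) (hc : N.supp.Countable) {D : Set Ω}
    (hS : N.Slow D) :
    ∃ N' : Model Ω, N.Le N' ∧ N'.supp.Countable ∧ ¬ N'.supp ⊆ N.supp ∧ N'.Slow D := by
  have hF := compl_infinite hc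
  obtain ⟨a, ha⟩ := hF.nonempty
  obtain ⟨p₀, hp₀⟩ := N.exists_point_cond ha
  obtain ⟨N', hle, hc', hp, hlim⟩ := Cond.limit hc (fun _ => True)
    (fun j q => ∃ n b, b ∈ N.ch n ∧ range b ⊆ D ∧ range b ⊆ range q.c ∧ q.s + j ≤ 2 * n) (by
      intro j x p _
      obtain ⟨n, b, t, g, hb, hbD, hg, hbg, hT, hle⟩ :=
        hS (range (p.c ∘ p.e) ∪ ({x} ∩ N.supp))
          ((finite_range _).union ((finite_singleton x).inter_of_left _))
          (union_subset (N.range_subset p.mem) inter_subset_right) (max (j + 1) p.s)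
      obtain ⟨w, hw, -⟩ := N.factor hg hb hbg
      have h1 := hw.le
      have h2 := le_max_left (j + 1) p.s
      have h3 := le_max_right (j + 1) p.s
      obtain ⟨q, hpq, hqs, hqi, hqr, -⟩ := p.amalg hF hg (subset_union_left.trans hT)
        (k := t) (by omega) le_rfl
      refine ⟨q, hpq, trivial, fun hx => hqr ▸ hT (Or.inr ⟨rfl, hx⟩), n, b, hb, hbD, ?_, by omega⟩
      exact hbg.trans (hqr ▸ range_comp_subset_range _ _)) p₀ trivial
  have haN' : a ∈ N'.supp := N'.range_subset hp (hp₀ ▸ rfl)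
  refine ⟨N', hle, hc', fun h => ha (h haN'), ?_⟩
  intro T hT hTs c
  obtain ⟨j, q, hj, -, ⟨n, b, hb, hbD, hbq, hle'⟩, hqm, hTq⟩ := hlim T hT hTs c
  exact ⟨n, b, q.s, q.c, hle n hb, hbD, hqm, hbq, hTq, by omega⟩

/-- The model with the empty chart only. -/
def triv (Ω : Type) : Model Ω where
  ch k := {_h | k = 0}
  inj := by
    intro k h hk
    obtain rfl : k = 0 := hk
    intro x
    exact isEmptyElim x
  comp := fun hh he => Nat.le_zero.mp (hh ▸ he.le)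
  dir := by
    intro k k' h h' hk hk'
    obtain rfl : k = 0 := hk
    obtain rfl : k' = 0 := hk'
    exact ⟨0, h, id, id, rfl, Emb.id, Emb.id, rfl, Subsingleton.elim _ _⟩
  base := ⟨isEmptyElim, rfl⟩

lemma supp_triv : (triv Ω).supp = ∅ := by
  ext x
  simp only [mem_empty_iff_false, iff_false]
  rintro ⟨k, h, hk, y, -⟩
  obtain rfl : k = 0 := hk
  exact isEmptyElim y

lemma exists_slow_base [Uncountable Ω] :
    ∃ N : Model Ω, N.supp.Countable ∧ N.Slow N.supp := by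
  have hc : (triv Ω).supp.Countable := by rw [supp_triv]; exact countable_empty
  have hF := compl_infinite hc
  obtain ⟨a, ha⟩ := hF.nonempty
  obtain ⟨p₀, -⟩ := (triv Ω).exists_point_cond ha
  obtain ⟨N', -, hc', -, hlim⟩ := Cond.limit hc (fun _ => True) (fun j q => j ≤ q.s) (by
      intro j x p _
      obtain ⟨q, hpq, hqs, -⟩ := p.amalg hF p.mem Subset.rfl (k := max j p.s) (le_max_right _ _)
        (p.emb.le.trans (le_max_right _ _))
      refine ⟨q, hpq, trivial, fun hx => ?_, by have := le_max_left j p.s; omega⟩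
      rw [supp_triv] at hx
      exact hx.elim) p₀ trivial
  refine ⟨N', hc', fun T hT hTs c => ?_⟩
  obtain ⟨j, q, hj, -, hq, hqm, hTq⟩ := hlim T hT hTs c
  exact ⟨q.s, q.c, q.s, q.c, hqm, N'.range_subset hqm, hqm, Subset.rfl, hTq, by omega⟩

/-! ### Limits of length `ω₁` -/

lemma exists_uncountable (Q : Model Ω → Prop) (R : Model Ω → Model Ω → Prop)
    (hQ : ∀ c hc hch, (∀ N ∈ c, Q N) → Q (chainUnion c hc hch))
    (hR : ∀ N N' N'', N.Le N' → N'.Le N'' → R N N' → R N N'')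
    (hext : ∀ N, N.supp.Countable → Q N →
      ∃ N', N.Le N' ∧ N'.supp.Countable ∧ ¬ N'.supp ⊆ N.supp ∧ Q N' ∧ R N N')
    (N₀ : Model Ω) (h₀ : N₀.supp.Countable) (hQ₀ : Q N₀) :
    ∃ N, Q N ∧ ¬ N.supp.Countable ∧
      ∀ D : Set Ω, D.Countable → D ⊆ N.supp → ∃ N₁, D ⊆ N₁.supp ∧ R N₁ N := by
  let P := {N : Model Ω // Q N ∧ (N.supp.Countable ∨
    ∀ D : Set Ω, D.Countable → D ⊆ N.supp → ∃ N₁, D ⊆ N₁.supp ∧ R N₁ N)}
  let r : P → P → Prop := fun N N' =>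
    N = N' ∨ (N.1.supp.Countable ∧ N.1.Le N'.1 ∧ R N.1 N'.1)
  have hrle : ∀ N N', r N N' → N.1.Le N'.1 := by
    rintro N N' (rfl | h)
    · exact Le.refl _
    · exact h.2.1
  obtain ⟨m, hm⟩ := exists_maximal_of_chains_bounded (r := r) (by
    intro c hc
    rcases c.eq_empty_or_nonempty with rfl | hne
    · exact ⟨⟨N₀, hQ₀, Or.inl h₀⟩, fun _ h => h.elim⟩
    by_cases hmax : ∃ m ∈ c, ∀ a ∈ c, r a m
    · obtain ⟨m, -, hm⟩ := hmax
      exact ⟨m, hm⟩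
    have htot : ∀ a ∈ c, ∀ b ∈ c, r a b ∨ r b a := by
      intro a ha b hb
      by_cases hab : a = b
      · exact Or.inl (Or.inl hab)
      · exact hc ha hb hab
    have hup : ∀ a ∈ c, ∃ b ∈ c, a.1.supp.Countable ∧ a.1.Le b.1 ∧ R a.1 b.1 := by
      intro a ha
      by_contra hcon
      refine hmax ⟨a, ha, fun b hb => ?_⟩
      rcases htot a ha b hb with (rfl | h) | h
      · exact Or.inl rfl
      · exact absurd ⟨b, hb, h⟩ hcon
      · exact h
    have hne' : (Subtype.val '' c).Nonempty := hne.image _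
    have hch : ∀ N ∈ Subtype.val '' c, ∀ N' ∈ Subtype.val '' c, N.Le N' ∨ N'.Le N := by
      rintro _ ⟨a, ha, rfl⟩ _ ⟨b, hb, rfl⟩
      exact (htot a ha b hb).imp (hrle _ _) (hrle _ _)
    have hU : ∀ a ∈ c, a.1.supp.Countable ∧ a.1.Le (chainUnion _ hne' hch) ∧
        R a.1 (chainUnion _ hne' hch) := by
      intro a ha
      obtain ⟨b, hb, h1, h2, h3⟩ := hup a ha
      exact ⟨h1, le_chainUnion hne' hch ⟨a, ha, rfl⟩,
        hR _ _ _ h2 (le_chainUnion hne' hch ⟨b, hb, rfl⟩) h3⟩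
    refine ⟨⟨chainUnion _ hne' hch, hQ _ _ _ ?_, ?_⟩, fun a ha => Or.inr (hU a ha)⟩
    · rintro _ ⟨a, -, rfl⟩
      exact a.2.1
    · by_cases hcU : (chainUnion _ hne' hch).supp.Countable
      · exact Or.inl hcU
      refine Or.inr fun D hD hDs => ?_
      have hx : ∀ x : D, ∃ a ∈ c, (x : Ω) ∈ a.1.supp := by
        intro x
        obtain ⟨_, ⟨a, ha, rfl⟩, hx⟩ := mem_supp_chainUnion hne' hch (hDs x.2)
        exact ⟨a, ha, hx⟩
      choose A hAc hA using hx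
      have := hD.to_subtype
      have hW : (⋃ x : D, (A x).1.supp).Countable := countable_iUnion fun x => (hU _ (hAc x)).1
      obtain ⟨z, hz, hzW⟩ := not_subset.mp (mt (fun h => hW.mono h) hcU)
      obtain ⟨_, ⟨a, ha, rfl⟩, hza⟩ := mem_supp_chainUnion hne' hch hz
      refine ⟨a.1, fun x hx => ?_, (hU a ha).2.2⟩
      rcases htot _ (hAc ⟨x, hx⟩) a ha with h | h
      · exact (hrle _ _ h).supp (hA ⟨x, hx⟩)
      · exact absurd (mem_iUnion.mpr ⟨⟨x, hx⟩, (hrle _ _ h).supp hza⟩) hzW) (by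
    rintro a b c (rfl | h1) h2
    · exact h2
    · exact Or.inr ⟨h1.1, h1.2.1.trans (hrle _ _ h2), hR _ _ _ h1.2.1 (hrle _ _ h2) h1.2.2⟩)
  have hmc : ¬ m.1.supp.Countable := by
    intro hcm
    obtain ⟨N', h1, h2, h3, h4, h5⟩ := hext m.1 hcm m.2.1
    exact h3 (hrle _ _ (hm ⟨N', h4, Or.inl h2⟩ (Or.inr ⟨hcm, h1, h5⟩))).supp
  exact ⟨m.1, m.2.1, hmc, m.2.2.resolve_left hmc⟩

theorem exists_slow_model [Uncountable Ω] :
    ∃ N : Model Ω, ¬ N.supp.Countable ∧ ∃ D : Set Ω, D.Countable ∧ N.Slow D := by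
  obtain ⟨N₀, h₀, hS₀⟩ := exists_slow_base (Ω := Ω)
  obtain ⟨N, h1, h2, -⟩ := exists_uncountable (fun N => N.Slow N₀.supp) (fun _ _ => True) (by
    intro c hc hch hQ T hT hTs k
    obtain ⟨m, G, ⟨N, hN, hG⟩, hTG⟩ := (chainUnion c hc hch).cover hT hTs
    obtain ⟨n, b, t, g, hb, hbD, hg, r⟩ := hQ N hN T hT (hTG.trans (N.range_subset hG)) k
    exact ⟨n, b, t, g, ⟨N, hN, hb⟩, hbD, ⟨N, hN, hg⟩, r⟩) (fun _ _ _ _ _ _ => trivial) (by
    intro N hc hS
    obtain ⟨N', h1, h2, h3, h4⟩ := N.exists_slow_ext hc hS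
    exact ⟨N', h1, h2, h3, h4, trivial⟩) N₀ h₀ hS₀
  exact ⟨N, h2, N₀.supp, h₀, h1⟩

theorem exists_fast_model [Uncountable Ω] :
    ∃ N : Model Ω, ¬ N.supp.Countable ∧
      ∀ D : Set Ω, D.Countable → D ⊆ N.supp → ∃ a ∈ N.supp, N.Fast D a := by
  obtain ⟨N, -, h2, h3⟩ := exists_uncountable (Ω := Ω) (fun _ => True)
    (fun N N' => ∃ a ∈ N'.supp, N'.Fast N.supp a) (fun _ _ _ _ => trivial) (by
    rintro N N' N'' h1 h2 ⟨a, ha, hF⟩
    exact ⟨a, h2.supp ha, hF.mono h2 h1.supp ha⟩) (by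
    intro N hc _
    obtain ⟨N', h1, h2, h3, h4⟩ := N.exists_fast_ext hc
    exact ⟨N', h1, h2, h3, trivial, h4⟩) (triv Ω)
    (by rw [supp_triv]; exact countable_empty) trivial
  refine ⟨N, h2, fun D hD hDs => ?_⟩
  obtain ⟨N₁, h4, a, ha, hF⟩ := h3 D hD hDs
  exact ⟨a, ha, fun t g hg hag n b hb hbD => hF t g hg hag n b hb (hbD.trans h4)⟩

end Model

end Pool.Agent.MP_f24711_lc
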